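import Pool.Agent.K1H9.HF.Count

set_option autoImplicit false

/-!
# Hyperadditions on a commutative group with zero
-/

namespace Pool.Agent.K1H9.HF

/-- triples up to permutation and scaling -/
def tripleSetoid (A : Type*) [CommGroup A] : Setoid (Fin 3 → A) where
  r v w := ∃ (σ : Equiv.Perm (Fin 3)) (l : A), ∀ i, w i = l * v (σ i)
  iseqv := by
    refine ⟨fun v => ⟨1, 1, fun i => by simp⟩, ?_, ?_⟩
    · rintro v w ⟨σ, l, h⟩
      refine ⟨σ⁻¹, l⁻¹, fun i => ?_⟩
      rw [h]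
      simp
    · rintro u v w ⟨σ, l, h⟩ ⟨σ', l', h'⟩
      refine ⟨σ * σ', l' * l, fun i => ?_⟩
      rw [h', h, mul_assoc]
      rfl

/-- the quotient -/
abbrev Om (A : Type*) [CommGroup A] := Quotient (tripleSetoid A)

/-- the class of a triple -/
def cl {A : Type*} [CommGroup A] (a b c : A) : Om A := Quotient.mk (tripleSetoid A) ![a, b, c]

section cl

variable {A : Type*} [CommGroup A]

theorem cl_swap12 (a b c : A) : cl a b c = cl b a c := by
  refine Quotient.sound ⟨Equiv.swap 0 1, 1, fun i => ?_⟩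
  fin_cases i
  · simp
  · simp
  · simp [Equiv.swap_apply_of_ne_of_ne]

theorem cl_swap23 (a b c : A) : cl a b c = cl a c b := by
  refine Quotient.sound ⟨Equiv.swap 1 2, 1, fun i => ?_⟩
  fin_cases i
  · simp [Equiv.swap_apply_of_ne_of_ne]
  · simp
  · simp

theorem cl_smul (l a b c : A) : cl (l * a) (l * b) (l * c) = cl a b c := by
  refine (Quotient.sound ⟨1, l, fun i => ?_⟩ : cl a b c = cl (l * a) (l * b) (l * c)).symm
  fin_cases i <;> simp

theorem cl_surj (ω : Om A) : ∃ a b c : A, cl a b c = ω := by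
  induction ω using Quotient.inductionOn with
  | h v =>
    refine ⟨v 0, v 1, v 2, ?_⟩
    have : ![v 0, v 1, v 2] = v := by
      funext i; fin_cases i <;> rfl
    exact congrArg (Quotient.mk (tripleSetoid A)) this

theorem cl_eq {a b c a' b' c' : A} (h : cl a b c = cl a' b' c') :
    ∃ (σ : Equiv.Perm (Fin 3)) (l : A), ∀ i, (![a', b', c'] : Fin 3 → A) i = l * ![a, b, c] (σ i) :=
  Quotient.exact h

/-- a relation on triples invariant under generators is invariant -/
theorem rel_of_cl {R : A → A → A → Prop} (h12 : ∀ a b c, R a b c → R b a c)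
    (h23 : ∀ a b c, R a b c → R a c b) (hs : ∀ l a b c, R a b c → R (l * a) (l * b) (l * c))
    {a b c a' b' c' : A} (h : cl a b c = cl a' b' c') (hR : R a b c) : R a' b' c' := by
  obtain ⟨σ, l, hσ⟩ := cl_eq h
  have h0 := hσ 0
  have h1 := hσ 1
  have h2 := hσ 2
  simp only [Matrix.cons_val_zero, Matrix.cons_val_one, Matrix.cons_val] at h0 h1 h2
  have n01 : σ 0 ≠ σ 1 := fun h => by simpa using σ.injective h
  have n02 : σ 0 ≠ σ 2 := fun h => by simpa using σ.injective h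
  have n12 : σ 1 ≠ σ 2 := fun h => by simpa using σ.injective h
  rw [h0, h1, h2]
  apply hs
  revert n01 n02 n12
  generalize σ 0 = i
  generalize σ 1 = j
  generalize σ 2 = k
  intro n01 n02 n12
  fin_cases i <;> fin_cases j <;> fin_cases k <;>
    first
    | exact absurd rfl n01
    | exact absurd rfl n02
    | exact absurd rfl n12
    | exact hR
    | exact h12 _ _ _ hR
    | exact h23 _ _ _ hR
    | exact h12 _ _ _ (h23 _ _ _ hR)
    | exact h23 _ _ _ (h12 _ _ _ hR)
    | exact h12 _ _ _ (h23 _ _ _ (h12 _ _ _ hR))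

end cl

section Hyp

variable {H : Type*} [CommGroupWithZero H]

/-- hyperadditions -/
def HypAdd (s : H → H → Set H) : Prop :=
  (∀ a b, (s a b).Nonempty) ∧
  (∀ a b, s a b = s b a) ∧
  (∀ a b c, (⋃ x ∈ s a b, s x c) = ⋃ x ∈ s b c, s a x) ∧
  (∀ a, s 0 a = {a}) ∧
  (∀ a, ∃! b, (0 : H) ∈ s a b) ∧
  (∀ a b c d, a ∈ s b c → (0 : H) ∈ s b d → c ∈ s a d) ∧
  (∀ a b c, (fun x => a * x) '' s b c = s (a * b) (a * c))

/-- the ternary relation -/
def TT (S : Finset (Om Hˣ)) (a b c : H) : Prop :=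
  ∃ a' b' c' : Hˣ, a = a' ∧ b = b' ∧ c = c' ∧ cl a' b' c' ∈ S

theorem TT.s12 {S : Finset (Om Hˣ)} {a b c : H} (h : TT S a b c) : TT S b a c := by
  obtain ⟨a', b', c', rfl, rfl, rfl, h⟩ := h
  exact ⟨b', a', c', rfl, rfl, rfl, by rwa [cl_swap12]⟩

theorem TT.s23 {S : Finset (Om Hˣ)} {a b c : H} (h : TT S a b c) : TT S a c b := by
  obtain ⟨a', b', c', rfl, rfl, rfl, h⟩ := h
  exact ⟨a', c', b', rfl, rfl, rfl, by rwa [cl_swap23]⟩

theorem TT.smul {S : Finset (Om Hˣ)} {a b c : H} (l : Hˣ) (h : TT S a b c) :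
    TT S (l * a) (l * b) (l * c) := by
  obtain ⟨a', b', c', rfl, rfl, rfl, h⟩ := h
  exact ⟨l * a', l * b', l * c', by simp, by simp, by simp, by rwa [cl_smul]⟩

theorem TT.ne {S : Finset (Om Hˣ)} {a b c : H} (h : TT S a b c) : a ≠ 0 ∧ b ≠ 0 ∧ c ≠ 0 := by
  obtain ⟨a', b', c', rfl, rfl, rfl, h⟩ := h
  exact ⟨a'.ne_zero, b'.ne_zero, c'.ne_zero⟩

/-- the hyperaddition of a set of classes of triples -/
def hadd (ε : Hˣ) (S : Finset (Om Hˣ)) (a b : H) : Set H :=
  {c | (a = 0 ∧ c = b) ∨ (b = 0 ∧ c = a) ∨ (a ≠ 0 ∧ b ≠ 0 ∧ c = 0 ∧ b = ε * a) ∨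
    TT S a b (ε * c)}

/-- richness -/
def Good (ε : Hˣ) (S : Finset (Om Hˣ)) : Prop :=
  ∀ a b c d : Hˣ, ∃ e : Hˣ, cl a b (ε * e) ∈ S ∧ cl e c d ∈ S

theorem mem_hadd {ε : Hˣ} {S : Finset (Om Hˣ)} {a b c : H} : c ∈ hadd ε S a b ↔
    (a = 0 ∧ c = b) ∨ (b = 0 ∧ c = a) ∨ (a ≠ 0 ∧ b ≠ 0 ∧ c = 0 ∧ b = ε * a) ∨
    TT S a b (ε * c) := Iff.rfl

theorem hadd_zero_left {ε : Hˣ} {S : Finset (Om Hˣ)} (a : H) : hadd ε S 0 a = {a} := by
  ext c
  rw [mem_hadd, Set.mem_singleton_iff]
  constructor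
  · rintro (h | h | h | h)
    · exact h.2
    · rw [h.2, h.1]
    · exact absurd rfl h.1
    · exact absurd rfl h.ne.1
  · intro h; exact Or.inl ⟨rfl, h⟩

theorem eps_mul {ε : Hˣ} (hε : ε * ε = 1) (x : H) : (ε : H) * (ε * x) = x := by
  rw [← mul_assoc, ← Units.val_mul, hε, Units.val_one, one_mul]

theorem hadd_comm {ε : Hˣ} (hε : ε * ε = 1) {S : Finset (Om Hˣ)} (a b : H) :
    hadd ε S a b = hadd ε S b a := by
  have aux : ∀ a b : H, hadd ε S a b ⊆ hadd ε S b a := by
    intro a b c h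
    rw [mem_hadd] at h ⊢
    rcases h with h | h | h | h
    · exact Or.inr (Or.inl h)
    · exact Or.inl h
    · refine Or.inr (Or.inr (Or.inl ⟨h.2.1, h.1, h.2.2.1, ?_⟩))
      rw [h.2.2.2, eps_mul hε]
    · exact Or.inr (Or.inr (Or.inr h.s12))
  exact Set.Subset.antisymm (aux a b) (aux b a)

theorem zero_mem_hadd {ε : Hˣ} {S : Finset (Om Hˣ)} {a b : H} (ha : a ≠ 0) :
    (0 : H) ∈ hadd ε S a b ↔ b = ε * a := by
  rw [mem_hadd]
  constructor
  · rintro (h | h | h | h)
    · exact absurd h.1 ha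
    · exact absurd h.2.symm ha
    · exact h.2.2.2
    · exact absurd (mul_zero _) h.ne.2.2
  · intro h
    exact Or.inr (Or.inr (Or.inl ⟨ha, by rw [h]; exact mul_ne_zero ε.ne_zero ha, rfl, h⟩))

theorem mem_hadd_of_ne {ε : Hˣ} {S : Finset (Om Hˣ)} {a b c : H} (ha : a ≠ 0) (hb : b ≠ 0)
    (hc : c ≠ 0) : c ∈ hadd ε S a b ↔ TT S a b (ε * c) := by
  rw [mem_hadd]
  constructor
  · rintro (h | h | h | h)
    · exact absurd h.1 ha
    · exact absurd h.1 hb
    · exact absurd h.2.2.1 hc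
    · exact h
  · intro h; exact Or.inr (Or.inr (Or.inr h))

theorem TT_units {S : Finset (Om Hˣ)} {a b c : Hˣ} : TT S (a : H) b c ↔ cl a b c ∈ S := by
  constructor
  · rintro ⟨a', b', c', h1, h2, h3, h⟩
    rw [Units.val_injective h1, Units.val_injective h2, Units.val_injective h3]
    exact h
  · intro h; exact ⟨a, b, c, rfl, rfl, rfl, h⟩

theorem good_hyp {ε : Hˣ} (hε : ε * ε = 1) {S : Finset (Om Hˣ)} (hS : Good ε S) :
    HypAdd (hadd ε S) := by
  have hne : ∀ a b, (hadd ε S a b).Nonempty := by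
    intro a b
    by_cases ha : a = 0
    · exact ⟨b, Or.inl ⟨ha, rfl⟩⟩
    by_cases hb : b = 0
    · exact ⟨a, Or.inr (Or.inl ⟨hb, rfl⟩)⟩
    obtain ⟨e, he, -⟩ := hS (Units.mk0 a ha) (Units.mk0 b hb) 1 1
    refine ⟨e, Or.inr (Or.inr (Or.inr ⟨Units.mk0 a ha, Units.mk0 b hb, ε * e, rfl, rfl, ?_, he⟩))⟩
    simp
  have hcomm := hadd_comm hε (S := S)
  have hassoc1 : ∀ a b c d : H, (∃ x ∈ hadd ε S a b, d ∈ hadd ε S x c) →
      ∃ x ∈ hadd ε S b c, d ∈ hadd ε S a x := by
    rintro a b c d ⟨x, hx, hd⟩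
    by_cases ha : a = 0
    · subst ha
      rw [hadd_zero_left, Set.mem_singleton_iff] at hx
      subst hx
      exact ⟨d, hd, by rw [hadd_zero_left]; rfl⟩
    by_cases hb : b = 0
    · subst hb
      rw [hcomm, hadd_zero_left, Set.mem_singleton_iff] at hx
      subst hx
      exact ⟨c, by rw [hadd_zero_left]; rfl, hd⟩
    by_cases hc : c = 0
    · subst hc
      rw [hcomm, hadd_zero_left, Set.mem_singleton_iff] at hd
      subst hd
      exact ⟨b, by rw [hcomm, hadd_zero_left]; rfl, hx⟩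
    by_cases hd0 : d = 0
    · subst hd0
      have hx0 : x ≠ 0 := by
        rintro rfl
        rw [hadd_zero_left, Set.mem_singleton_iff] at hd
        exact hc hd.symm
      rw [zero_mem_hadd hx0] at hd
      rw [mem_hadd_of_ne ha hb hx0, ← hd] at hx
      refine ⟨ε * a, ?_, (zero_mem_hadd ha).mpr rfl⟩
      rw [mem_hadd_of_ne hb hc (mul_ne_zero ε.ne_zero ha), eps_mul hε]
      exact hx.s12.s23
    · obtain ⟨e, he1, he2⟩ := hS (Units.mk0 b hb) (Units.mk0 c hc) (Units.mk0 a ha)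
        (ε * Units.mk0 d hd0)
      refine ⟨e, ?_, ?_⟩
      · rw [mem_hadd_of_ne hb hc e.ne_zero]
        exact ⟨Units.mk0 b hb, Units.mk0 c hc, ε * e, rfl, rfl, by simp, he1⟩
      · rw [mem_hadd_of_ne ha e.ne_zero hd0]
        have : TT S (e : H) a (ε * d) := ⟨e, Units.mk0 a ha, ε * Units.mk0 d hd0, rfl, rfl, by simp, he2⟩
        exact this.s12
  refine ⟨hne, hcomm, ?_, fun a => hadd_zero_left a, ?_, ?_, ?_⟩
  · intro a b c
    ext d
    simp only [Set.mem_iUnion, exists_prop]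
    constructor
    · exact hassoc1 a b c d
    · rintro ⟨x, hx, hd⟩
      rw [hcomm] at hx hd
      obtain ⟨y, hy, hd⟩ := hassoc1 c b a d ⟨x, hx, hd⟩
      rw [hcomm] at hy hd
      exact ⟨y, hy, hd⟩
  · intro a
    by_cases ha : a = 0
    · subst ha
      have h00 : (0 : H) ∈ hadd ε S 0 0 := by rw [hadd_zero_left]; rfl
      refine ⟨0, h00, ?_⟩
      intro b hb
      simp only [hadd_zero_left, Set.mem_singleton_iff] at hb
      exact hb.symm
    · exact ⟨ε * a, (zero_mem_hadd ha).mpr rfl, fun b hb => (zero_mem_hadd ha).mp hb⟩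
  · intro a b c d h1 h2
    by_cases hb : b = 0
    · subst hb
      rw [hadd_zero_left, Set.mem_singleton_iff] at h1 h2
      subst h1; subst h2
      rw [hcomm, hadd_zero_left]; rfl
    · rw [zero_mem_hadd hb] at h2
      subst h2
      rcases mem_hadd.mp h1 with h | h | h | h
      · exact absurd h.1 hb
      · obtain ⟨rfl, rfl⟩ := h
        exact (zero_mem_hadd hb).mpr rfl
      · obtain ⟨-, -, rfl, rfl⟩ := h
        rw [hadd_zero_left]; rfl
      · refine Or.inr (Or.inr (Or.inr ?_))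
        have := (h.smul ε)
        rw [eps_mul hε] at this
        exact this.s23.s12
  · have aux : ∀ (l : Hˣ) (b c x : H), x ∈ hadd ε S b c → (l : H) * x ∈ hadd ε S (l * b) (l * c) := by
      intro l b c x hx
      rcases mem_hadd.mp hx with h | h | h | h
      · exact Or.inl ⟨by rw [h.1, mul_zero], by rw [h.2]⟩
      · exact Or.inr (Or.inl ⟨by rw [h.1, mul_zero], by rw [h.2]⟩)
      · refine Or.inr (Or.inr (Or.inl ⟨mul_ne_zero l.ne_zero h.1, mul_ne_zero l.ne_zero h.2.1,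
          by rw [h.2.2.1, mul_zero], ?_⟩))
        rw [h.2.2.2, mul_left_comm]
      · refine Or.inr (Or.inr (Or.inr ?_))
        rw [mul_left_comm]
        exact h.smul l
    intro a b c
    by_cases ha : a = 0
    · subst ha
      simp only [zero_mul]
      rw [hadd_zero_left]
      exact (hne b c).image_const 0
    · ext y
      constructor
      · rintro ⟨x, hx, rfl⟩
        exact aux (Units.mk0 a ha) b c x hx
      · intro hy
        refine ⟨a⁻¹ * y, ?_, by simp [ha]⟩
        have := aux (Units.mk0 a ha)⁻¹ _ _ _ hy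
        simpa [ha] using this

/-- every hyperaddition comes from a set of classes of triples -/
theorem exists_hadd [Fintype (Om Hˣ)] {s : H → H → Set H} (hs : HypAdd s) :
    ∃ (ε : Hˣ) (S : Finset (Om Hˣ)), ε * ε = 1 ∧ s = hadd ε S ∧
      ((∃ e, (0 : H) ∈ s 1 e ∧ s 1 e = Set.univ) → ∀ c : Hˣ, cl 1 ε c ∈ S) := by
  classical
  obtain ⟨h1, h2, h3, h4, h5, h6, h7⟩ := hs
  obtain ⟨e, he, heu⟩ := h5 1
  have he0 : e ≠ 0 := by
    rintro rfl
    simp only [h2 1 0, h4, Set.mem_singleton_iff] at he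
    exact zero_ne_one he
  set ε : Hˣ := Units.mk0 e he0 with hε
  have hval : (ε : H) = e := rfl
  have hzero : ∀ a : H, (0 : H) ∈ s a (ε * a) := by
    intro a
    have : a * 0 ∈ (fun x => a * x) '' s 1 e := ⟨0, he, rfl⟩
    rw [h7, mul_one, mul_zero, mul_comm] at this
    exact this
  have hunique : ∀ a b : H, (0 : H) ∈ s a b → b = ε * a := by
    intro a b hab
    exact (h5 a).unique hab (hzero a)
  have hεε : ε * ε = 1 := by
    have h8 := hzero (ε : H)
    have h9 := hzero (1 : H)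
    rw [mul_one, h2] at h9
    have := (h5 (ε : H)).unique h8 h9
    exact Units.val_injective (by rw [Units.val_mul, this, Units.val_one])
  -- the relation
  let R : Hˣ → Hˣ → Hˣ → Prop := fun a b c => ((ε : H) * c) ∈ s a b
  have R12 : ∀ a b c, R a b c → R b a c := by
    intro a b c h
    simp only [R] at h ⊢
    rwa [h2]
  have Rs : ∀ l a b c, R a b c → R (l * a) (l * b) (l * c) := by
    intro l a b c h
    simp only [R] at h ⊢
    have : (l : H) * (ε * c) ∈ (fun x => (l : H) * x) '' s a b := ⟨_, h, rfl⟩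
    rw [h7] at this
    push_cast
    rw [mul_left_comm]
    exact this
  have R23 : ∀ a b c, R a b c → R a c b := by
    intro a b c h
    simp only [R] at h ⊢
    have h8 := h6 _ _ _ _ h (hzero (a : H))
    have : (ε : H) * b ∈ (fun x => (ε : H) * x) '' s (ε * c) (ε * a) := ⟨_, h8, rfl⟩
    rw [h7, eps_mul hεε, eps_mul hεε, h2] at this
    exact this
  let S : Finset (Om Hˣ) := Finset.univ.filter (fun ω => ∃ a b c : Hˣ, cl a b c = ω ∧ R a b c)
  have hmem : ∀ a b c : Hˣ, cl a b c ∈ S ↔ R a b c := by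
    intro a b c
    simp only [S, Finset.mem_filter, Finset.mem_univ, true_and]
    constructor
    · rintro ⟨a', b', c', h, hR⟩
      exact rel_of_cl R12 R23 Rs h hR
    · intro h; exact ⟨a, b, c, rfl, h⟩
  refine ⟨ε, S, hεε, ?_, ?_⟩
  · funext a b
    by_cases ha : a = 0
    · subst ha; rw [h4, hadd_zero_left]
    by_cases hb : b = 0
    · subst hb; rw [h2, h4, hadd_comm hεε, hadd_zero_left]
    ext c
    by_cases hc : c = 0
    · subst hc
      rw [zero_mem_hadd ha]
      constructor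
      · exact hunique a b
      · rintro rfl; exact hzero a
    · rw [mem_hadd_of_ne ha hb hc]
      have h8 : TT S a b (ε * c) ↔ cl (Units.mk0 a ha) (Units.mk0 b hb) (ε * Units.mk0 c hc) ∈ S := by
        rw [← TT_units]
        simp
      rw [h8, hmem]
      simp only [R]
      push_cast
      simp only [Units.val_mk0]
      rw [eps_mul hεε]
  · rintro ⟨e', he', hu⟩ c
    rw [hmem]
    simp only [R]
    have : e' = ε := by
      rw [hunique 1 e' he', mul_one]
    rw [this] at hu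
    have hu' : s ((1 : Hˣ) : H) ε = Set.univ := by simpa using hu
    rw [hu']
    exact Set.mem_univ _

theorem hadd_inj {ε ε' : Hˣ} (hε : ε * ε = 1) (hε' : ε' * ε' = 1) {S S' : Finset (Om Hˣ)}
    (h : hadd ε S = hadd ε' S') : ε = ε' ∧ S = S' := by
  have h1 : ε = ε' := by
    have : (0 : H) ∈ hadd ε S 1 ε := (zero_mem_hadd one_ne_zero).mpr (mul_one _).symm
    rw [h, zero_mem_hadd one_ne_zero, mul_one] at this
    exact Units.val_injective this
  subst h1
  refine ⟨rfl, ?_⟩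
  ext ω
  obtain ⟨a, b, c, rfl⟩ := cl_surj ω
  rw [← TT_units, ← TT_units]
  have key : ∀ S : Finset (Om Hˣ), TT S (a : H) b c ↔ ((ε : H) * c) ∈ hadd ε S a b := by
    intro S
    rw [mem_hadd_of_ne a.ne_zero b.ne_zero (mul_ne_zero ε.ne_zero c.ne_zero), eps_mul hε]
  rw [key, key, h]

end Hyp

end Pool.Agent.K1H9.HF
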