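import Pool.Agent.K1H9.HF.Abs

set_option autoImplicit false
set_option linter.unusedSectionVars false

/-!
# Counting hyperadditions on a commutative group with zero
-/

namespace Pool.Agent.K1H9.HF

open Finset

section six

variable {A : Type*} [CommGroup A] [DecidableEq (Om A)]

theorem fib {ι : Type*} [Fintype ι] (F : ι → Fin 3 → A)
    (hF : Function.Injective F) (i0 : Fin 3) (k : A) (h1 : ∀ e, F e i0 = k) (ω : Om A) :
    (Finset.univ.filter (fun e => (Quotient.mk (tripleSetoid A) (F e)) = ω)).card ≤ 6 := by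
  classical
  rcases Finset.eq_empty_or_nonempty
    (Finset.univ.filter (fun e => (Quotient.mk (tripleSetoid A) (F e)) = ω)) with h | ⟨e0, he0⟩
  · rw [h]; simp
  · simp only [Finset.mem_filter, Finset.mem_univ, true_and] at he0
    have hex : ∀ e, (Quotient.mk (tripleSetoid A) (F e)) = ω →
        ∃ (σ : Equiv.Perm (Fin 3)) (l : A), ∀ i, F e i = l * F e0 (σ i) := by
      intro e he
      exact Quotient.exact (he0.trans he.symm)
    let g : ι → Equiv.Perm (Fin 3) := fun e =>
      if h : (Quotient.mk (tripleSetoid A) (F e)) = ω then (hex e h).choose else 1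
    have hcard : (Finset.univ : Finset (Equiv.Perm (Fin 3))).card = 6 := by
      rw [Finset.card_univ, Fintype.card_perm, Fintype.card_fin]; rfl
    rw [← hcard]
    refine Finset.card_le_card_of_injOn g (fun _ _ => Finset.mem_coe.mpr (Finset.mem_univ _)) ?_
    intro e he e' he' hg
    simp only [Finset.coe_filter, Finset.mem_univ, true_and, Set.mem_ofPred_eq] at he he'
    obtain ⟨l, hl⟩ := (hex e he).choose_spec
    obtain ⟨l', hl'⟩ := (hex e' he').choose_spec
    simp only [g, dif_pos he, dif_pos he'] at hg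
    rw [← hg] at hl'
    have hll : l = l' := by
      have h2 := hl i0
      have h3 := hl' i0
      rw [h1] at h2 h3
      exact mul_right_cancel (h2.symm.trans h3)
    apply hF
    funext i
    rw [hl, hl', hll]

end six

section good

variable {A : Type*} [CommGroup A] [Fintype A] [DecidableEq A] [DecidableEq (Om A)]
  [Fintype (Om A)]

theorem inj_w1 (a b ε : A) : Function.Injective (fun e : A => (![a, b, ε * e] : Fin 3 → A)) := by
  intro e e' h
  have := congrFun h 2
  simpa using this

theorem inj_w2 (c d : A) : Function.Injective (fun e : A => (![e, c, d] : Fin 3 → A)) := by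
  intro e e' h
  have := congrFun h 0
  simpa using this

theorem bad_quadruple (ε a b c d : A) :
    4 ^ (Fintype.card A / 24) * ((Finset.univ : Finset (Finset (Om A))).filter
      (fun S => ∀ e, ¬ (cl a b (ε * e) ∈ S ∧ cl e c d ∈ S))).card ≤
    3 ^ (Fintype.card A / 24) * 2 ^ Fintype.card (Om A) := by
  classical
  let w1 : A → Om A := fun e => cl a b (ε * e)
  let w2 : A → Om A := fun e => cl e c d
  have f1 : ∀ ω, (Finset.univ.filter (fun e => w1 e = ω)).card ≤ 6 := fun ω =>
    fib (fun e : A => ![a, b, ε * e]) (inj_w1 a b ε) 0 a (fun e => rfl) ω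
  have f2 : ∀ ω, (Finset.univ.filter (fun e => w2 e = ω)).card ≤ 6 := fun ω =>
    fib (fun e : A => ![e, c, d]) (inj_w2 c d) 1 c (fun e => rfl) ω
  let conf : A → A → Prop := fun e e' => w1 e = w1 e' ∨ w1 e = w2 e' ∨ w2 e = w1 e' ∨ w2 e = w2 e'
  obtain ⟨E, hE, hcard⟩ := exists_indep conf
    (by intro x y h; simp only [conf] at h ⊢; rcases h with h | h | h | h
        · exact Or.inl h.symm
        · exact Or.inr (Or.inr (Or.inl h.symm))
        · exact Or.inr (Or.inl h.symm)
        · exact Or.inr (Or.inr (Or.inr h.symm)))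
    (fun x => Or.inl rfl) 24 (by
      intro e
      have hsub : Finset.univ.filter (fun x => conf e x) ⊆
          ((Finset.univ.filter (fun x => w1 x = w1 e)) ∪ (Finset.univ.filter (fun x => w2 x = w1 e)))
          ∪ ((Finset.univ.filter (fun x => w1 x = w2 e)) ∪ (Finset.univ.filter (fun x => w2 x = w2 e))) := by
        intro x hx
        simp only [Finset.mem_filter, Finset.mem_univ, true_and, conf] at hx
        simp only [Finset.mem_union, Finset.mem_filter, Finset.mem_univ, true_and]
        rcases hx with h | h | h | h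
        · exact Or.inl (Or.inl h.symm)
        · exact Or.inl (Or.inr h.symm)
        · exact Or.inr (Or.inl h.symm)
        · exact Or.inr (Or.inr h.symm)
      refine (Finset.card_le_card hsub).trans ?_
      refine (Finset.card_union_le _ _).trans ?_
      have h1 := Finset.card_union_le (Finset.univ.filter (fun x => w1 x = w1 e))
        (Finset.univ.filter (fun x => w2 x = w1 e))
      have h2 := Finset.card_union_le (Finset.univ.filter (fun x => w1 x = w2 e))
        (Finset.univ.filter (fun x => w2 x = w2 e))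
      have h3 := f1 (w1 e)
      have h4 := f1 (w2 e)
      have h5 := f2 (w1 e)
      have h6 := f2 (w2 e)
      omega)
  have hk : Fintype.card A / 24 ≤ E.card := by omega
  obtain ⟨E', hE', hcard'⟩ := Finset.exists_subset_card_eq hk
  have := count_pairs w1 w2 E' (by
    intro e he e' he' hne
    have := hE e (hE' he) e' (hE' he') hne
    simp only [conf, not_or] at this
    exact this)
  rw [hcard'] at this
  refine le_trans (Nat.mul_le_mul_left _ (Finset.card_le_card ?_)) this
  intro S hS
  simp only [Finset.mem_filter, Finset.mem_univ, true_and] at hS ⊢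
  intro e _
  exact hS e

/-- most sets are good -/
theorem card_good (ε : A)
    (hr : 2 * Fintype.card A ^ 4 * 3 ^ (Fintype.card A / 24) ≤ 4 ^ (Fintype.card A / 24)) :
    2 ^ Fintype.card (Om A) ≤ 2 * ((Finset.univ : Finset (Finset (Om A))).filter
      (fun S => ∀ a b c d : A, ∃ e : A, cl a b (ε * e) ∈ S ∧ cl e c d ∈ S)).card := by
  classical
  set k := Fintype.card A / 24 with hk
  set g := (Finset.univ : Finset (Finset (Om A))).filter
      (fun S => ∀ a b c d : A, ∃ e : A, cl a b (ε * e) ∈ S ∧ cl e c d ∈ S) with hg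
  set ng := (Finset.univ : Finset (Finset (Om A))).filter
      (fun S => ¬ ∀ a b c d : A, ∃ e : A, cl a b (ε * e) ∈ S ∧ cl e c d ∈ S) with hng
  have h1 : g.card + ng.card = 2 ^ Fintype.card (Om A) := by
    rw [hg, hng, Finset.card_filter_add_card_filter_not, Finset.card_univ, Fintype.card_finset]
  have h2 : ng ⊆ (Finset.univ : Finset (A × A × A × A)).biUnion (fun q =>
      (Finset.univ : Finset (Finset (Om A))).filter
        (fun S => ∀ e, ¬ (cl q.1 q.2.1 (ε * e) ∈ S ∧ cl e q.2.2.1 q.2.2.2 ∈ S))) := by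
    intro S hS
    simp only [hng, Finset.mem_filter, Finset.mem_univ, true_and] at hS
    push Not at hS
    obtain ⟨a, b, c, d, h⟩ := hS
    rw [Finset.mem_biUnion]
    refine ⟨(a, b, c, d), Finset.mem_univ _, ?_⟩
    simp only [Finset.mem_filter, Finset.mem_univ, true_and]
    intro e he
    exact h e he.1 he.2
  have h3 : 4 ^ k * ng.card ≤ Fintype.card A ^ 4 * (3 ^ k * 2 ^ Fintype.card (Om A)) := by
    calc 4 ^ k * ng.card ≤ 4 ^ k * ∑ q : A × A × A × A,
          ((Finset.univ : Finset (Finset (Om A))).filter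
          (fun S => ∀ e, ¬ (cl q.1 q.2.1 (ε * e) ∈ S ∧ cl e q.2.2.1 q.2.2.2 ∈ S))).card :=
          Nat.mul_le_mul_left _ ((Finset.card_le_card h2).trans Finset.card_biUnion_le)
      _ = ∑ q : A × A × A × A, 4 ^ k *
          ((Finset.univ : Finset (Finset (Om A))).filter
          (fun S => ∀ e, ¬ (cl q.1 q.2.1 (ε * e) ∈ S ∧ cl e q.2.2.1 q.2.2.2 ∈ S))).card := by
          rw [Finset.mul_sum]
      _ ≤ ∑ _q : A × A × A × A, 3 ^ k * 2 ^ Fintype.card (Om A) :=
          Finset.sum_le_sum fun q _ => bad_quadruple ε _ _ _ _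
      _ = _ := by
          rw [Finset.sum_const, Finset.card_univ, smul_eq_mul]
          simp only [Fintype.card_prod]
          ring
  have h4 : 4 ^ k * (2 * ng.card) ≤ 4 ^ k * 2 ^ Fintype.card (Om A) := by
    calc 4 ^ k * (2 * ng.card) = 2 * (4 ^ k * ng.card) := by ring
      _ ≤ 2 * (Fintype.card A ^ 4 * (3 ^ k * 2 ^ Fintype.card (Om A))) := Nat.mul_le_mul_left _ h3
      _ = (2 * Fintype.card A ^ 4 * 3 ^ k) * 2 ^ Fintype.card (Om A) := by ring
      _ ≤ 4 ^ k * 2 ^ Fintype.card (Om A) := Nat.mul_le_mul_right _ hr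
  have h5 : 2 * ng.card ≤ 2 ^ Fintype.card (Om A) := Nat.le_of_mul_le_mul_left h4 (by positivity)
  omega

theorem card_Om : Fintype.card A * Fintype.card A ≤ 6 * Fintype.card (Om A) := by
  classical
  have h := Finset.card_le_mul_card_image (s := (Finset.univ : Finset (A × A)))
    (f := fun p => cl (1 : A) p.1 p.2) 6 (by
      intro ω _
      refine fib (fun p : A × A => ![1, p.1, p.2]) ?_ 0 1 (fun e => rfl) ω
      rintro ⟨a, b⟩ ⟨a', b'⟩ h
      have h1 := congrFun h 1
      have h2 := congrFun h 2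
      simp only [Matrix.cons_val_one, Matrix.cons_val] at h1 h2
      rw [h1, h2])
  rw [Finset.card_univ, Fintype.card_prod] at h
  exact h.trans (Nat.mul_le_mul_left _ (Finset.card_le_univ _))

theorem card_B (ε : A) :
    Fintype.card A ≤ 6 * ((Finset.univ : Finset A).image (fun c => cl 1 ε c)).card := by
  classical
  have h := Finset.card_le_mul_card_image (s := (Finset.univ : Finset A))
    (f := fun c => cl (1 : A) ε c) 6 (by
      intro ω _
      refine fib (fun c : A => ![1, ε, c]) ?_ 0 1 (fun e => rfl) ω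
      intro a a' h
      have h2 := congrFun h 2
      simpa using h2)
  rwa [Finset.card_univ] at h

end good

section main

variable {H : Type*} [CommGroupWithZero H] [Finite H]

/-- The comparison between all hyperadditions and those with `1 ⊞ (-1)` everything. -/
theorem main_abs (r : ℕ) (hr : Nat.card Hˣ = r) (hlarge : 2 * r ^ 4 * 3 ^ (r / 24) ≤ 4 ^ (r / 24)) :
    2 ^ (r / 6) * Set.ncard {s : H → H → Set H | HypAdd s ∧ ∃ e, (0 : H) ∈ s 1 e ∧ s 1 e = Set.univ}
      ≤ 2 * Set.ncard {s : H → H → Set H | HypAdd s} ∧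
    2 ^ (r * r / 6) ≤ 2 * Set.ncard {s : H → H → Set H | HypAdd s} := by
  classical
  have := Fintype.ofFinite Hˣ
  have : Fintype (Om Hˣ) := Fintype.ofFinite _
  rw [Nat.card_eq_fintype_card] at hr
  subst hr
  set r := Fintype.card Hˣ with hr
  let E2 : Finset Hˣ := Finset.univ.filter (fun ε => ε * ε = 1)
  let gd : Hˣ → Finset (Finset (Om Hˣ)) := fun ε =>
    (Finset.univ : Finset (Finset (Om Hˣ))).filter
      (fun S => ∀ a b c d : Hˣ, ∃ e : Hˣ, cl a b (ε * e) ∈ S ∧ cl e c d ∈ S)
  let Bs : Hˣ → Finset (Om Hˣ) := fun ε => (Finset.univ : Finset Hˣ).image (fun c => cl 1 ε c)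
  let cs : Hˣ → Finset (Finset (Om Hˣ)) := fun ε =>
    (Finset.univ : Finset (Finset (Om Hˣ))).filter (fun S => Bs ε ⊆ S)
  have hgd : ∀ ε, 2 ^ Fintype.card (Om Hˣ) ≤ 2 * (gd ε).card := fun ε => card_good ε hlarge
  -- lower bound for all
  have hlow : ∑ ε ∈ E2, (gd ε).card ≤ Set.ncard {s : H → H → Set H | HypAdd s} := by
    rw [← Finset.card_sigma, ← Set.ncard_coe_finset]
    refine Set.ncard_le_ncard_of_injOn (fun p : (_ : Hˣ) × Finset (Om Hˣ) => hadd p.1 p.2)
      ?_ ?_ (Set.toFinite _)
    · rintro ⟨ε, S⟩ hp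
      simp only [Finset.mem_coe, Finset.mem_sigma, E2, gd, Finset.mem_filter, Finset.mem_univ,
        true_and] at hp
      exact good_hyp hp.1 hp.2
    · rintro ⟨ε, S⟩ hp ⟨ε', S'⟩ hp' h
      simp only [Finset.mem_coe, Finset.mem_sigma, E2, gd, Finset.mem_filter, Finset.mem_univ,
        true_and] at hp hp'
      obtain ⟨rfl, rfl⟩ := hadd_inj hp.1 hp'.1 h
      rfl
  have hup : Set.ncard {s : H → H → Set H | HypAdd s ∧ ∃ e, (0 : H) ∈ s 1 e ∧ s 1 e = Set.univ} ≤
      ∑ ε ∈ E2, (cs ε).card := by
    have : Set.ncard {s : H → H → Set H | HypAdd s ∧ ∃ e, (0 : H) ∈ s 1 e ∧ s 1 e = Set.univ} ≤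
        Set.ncard ((fun p : (_ : Hˣ) × Finset (Om Hˣ) => (hadd p.1 p.2 : H → H → Set H)) ''
          ((E2.sigma cs : Finset _) : Set _)) := by
      refine Set.ncard_le_ncard ?_ (Set.toFinite _)
      rintro s ⟨hs, hc⟩
      obtain ⟨ε, S, h1, h2, h3⟩ := exists_hadd hs
      refine ⟨⟨ε, S⟩, ?_, h2.symm⟩
      simp only [Finset.mem_coe, Finset.mem_sigma, E2, cs, Finset.mem_filter, Finset.mem_univ,
        true_and, Bs]
      refine ⟨h1, ?_⟩
      intro ω hω
      obtain ⟨c, -, rfl⟩ := Finset.mem_image.mp hω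
      exact h3 hc c
    refine this.trans ((Set.ncard_image_le (Set.toFinite _)).trans ?_)
    rw [Set.ncard_coe_finset, Finset.card_sigma]
  constructor
  · calc 2 ^ (r / 6) * Set.ncard {s : H → H → Set H | HypAdd s ∧ ∃ e, (0 : H) ∈ s 1 e ∧ s 1 e = Set.univ}
        ≤ 2 ^ (r / 6) * ∑ ε ∈ E2, (cs ε).card := Nat.mul_le_mul_left _ hup
      _ = ∑ ε ∈ E2, 2 ^ (r / 6) * (cs ε).card := by rw [Finset.mul_sum]
      _ ≤ ∑ ε ∈ E2, 2 * (gd ε).card := by
          refine Finset.sum_le_sum fun ε _ => ?_
          have h1 : r / 6 ≤ (Bs ε).card := by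
            have h0 : r ≤ 6 * (Bs ε).card := card_B ε
            omega
          calc 2 ^ (r / 6) * (cs ε).card ≤ 2 ^ (Bs ε).card * (cs ε).card :=
                Nat.mul_le_mul_right _ (Nat.pow_le_pow_right (by norm_num) h1)
            _ = 2 ^ Fintype.card (Om Hˣ) := count_superset _
            _ ≤ _ := hgd ε
      _ = 2 * ∑ ε ∈ E2, (gd ε).card := by rw [Finset.mul_sum]
      _ ≤ _ := Nat.mul_le_mul_left _ hlow
  · have h1 : r * r / 6 ≤ Fintype.card (Om Hˣ) := by
      have h0 : r * r ≤ 6 * Fintype.card (Om Hˣ) := card_Om (A := Hˣ)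
      omega
    calc 2 ^ (r * r / 6) ≤ 2 ^ Fintype.card (Om Hˣ) := Nat.pow_le_pow_right (by norm_num) h1
      _ ≤ 2 * (gd 1).card := hgd 1
      _ ≤ 2 * ∑ ε ∈ E2, (gd ε).card := by
          refine Nat.mul_le_mul_left _ ?_
          exact Finset.single_le_sum (f := fun ε => (gd ε).card) (fun _ _ => Nat.zero_le _)
            (by simp [E2])
      _ ≤ _ := Nat.mul_le_mul_left _ hlow

end main

end Pool.Agent.K1H9.HF
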