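import Mathlib

set_option autoImplicit false

/-!
# Counting subsets
-/

namespace Pool.Agent.K1H9.HF

open Finset

/-- sets avoiding disjoint pairs are rare -/
theorem count_pairs {Ω ι : Type*} [Fintype Ω] [DecidableEq Ω] [DecidableEq ι] (w1 w2 : ι → Ω)
    (E : Finset ι)
    (hE : ∀ e ∈ E, ∀ e' ∈ E, e ≠ e' → w1 e ≠ w1 e' ∧ w1 e ≠ w2 e' ∧ w2 e ≠ w1 e' ∧ w2 e ≠ w2 e') :
    4 ^ E.card * ((Finset.univ : Finset (Finset Ω)).filter
      (fun S => ∀ e ∈ E, ¬ (w1 e ∈ S ∧ w2 e ∈ S))).card ≤ 3 ^ E.card * 2 ^ Fintype.card Ω := by
  induction E using Finset.induction_on with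
  | empty => simp
  | insert a E ha ih =>
    have ih' := ih (fun e he e' he' => hE e (Finset.mem_insert_of_mem he) e'
      (Finset.mem_insert_of_mem he'))
    set F := (Finset.univ : Finset (Finset Ω)).filter
      (fun S => ∀ e ∈ E, ¬ (w1 e ∈ S ∧ w2 e ∈ S)) with hF
    set F' := (Finset.univ : Finset (Finset Ω)).filter
      (fun S => ∀ e ∈ insert a E, ¬ (w1 e ∈ S ∧ w2 e ∈ S)) with hF'
    set B := F.filter (fun S => w1 a ∈ S ∧ w2 a ∈ S) with hB
    have h1 : F'.card + B.card = F.card := by
      have h2 : F' = F.filter (fun S => ¬ (w1 a ∈ S ∧ w2 a ∈ S)) := by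
        ext S
        simp only [hF, hF', Finset.mem_filter, Finset.mem_univ, true_and, Finset.mem_insert,
          forall_eq_or_imp]
        tauto
      rw [h2, hB, add_comm]
      exact Finset.card_filter_add_card_filter_not _
    have h2 : F.card ≤ 4 * B.card := by
      have hmaps : ∀ S ∈ F, S ∪ {w1 a, w2 a} ∈ B := by
        intro S hS
        simp only [hB, hF, Finset.mem_filter, Finset.mem_univ, true_and] at hS ⊢
        refine ⟨fun e he => ?_, by simp, by simp⟩
        have hne : e ≠ a := fun h => ha (h ▸ he)
        have h3 := hE e (Finset.mem_insert_of_mem he) a (Finset.mem_insert_self _ _) hne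
        have h4 := hS e he
        simp only [Finset.mem_union, Finset.mem_insert, Finset.mem_singleton]
        tauto
      have himg : F.image (fun S => S ∪ {w1 a, w2 a}) ⊆ B := by
        intro T hT
        obtain ⟨S, hS, rfl⟩ := Finset.mem_image.mp hT
        exact hmaps S hS
      have hfib : ∀ T ∈ F.image (fun S => S ∪ {w1 a, w2 a}),
          (F.filter (fun S => S ∪ {w1 a, w2 a} = T)).card ≤ 4 := by
        intro T _
        have hpow : (({w1 a, w2 a} : Finset Ω).powerset).card ≤ 4 := by
          rw [Finset.card_powerset]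
          calc 2 ^ ({w1 a, w2 a} : Finset Ω).card ≤ 2 ^ 2 :=
                Nat.pow_le_pow_right (by norm_num) Finset.card_le_two
            _ = 4 := by norm_num
        refine le_trans ?_ hpow
        refine Finset.card_le_card_of_injOn (fun S => S ∩ {w1 a, w2 a}) ?_ ?_
        · intro S _
          simp only [Finset.coe_powerset, Set.mem_preimage, Set.mem_powerset_iff, Finset.coe_subset]
          exact Finset.inter_subset_right
        · intro S hS S' hS' hSS
          simp only [Finset.coe_filter, Set.mem_ofPred_eq] at hS hS'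
          ext x
          by_cases hx : x ∈ ({w1 a, w2 a} : Finset Ω)
          · have := congrArg (fun U => x ∈ U) hSS
            simp only [Finset.mem_inter, hx, and_true, eq_iff_iff] at this
            exact this
          · have := congrArg (fun U => x ∈ U) (hS.2.trans hS'.2.symm)
            simp only [Finset.mem_union, hx, or_false, eq_iff_iff] at this
            exact this
      calc F.card ≤ 4 * (F.image (fun S => S ∪ {w1 a, w2 a})).card :=
            Finset.card_le_mul_card_image F 4 hfib
        _ ≤ 4 * B.card := Nat.mul_le_mul_left _ (Finset.card_le_card himg)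
    have h3 : 4 * F'.card ≤ 3 * F.card := by omega
    rw [Finset.card_insert_of_notMem ha]
    calc 4 ^ (E.card + 1) * F'.card = 4 ^ E.card * (4 * F'.card) := by ring
      _ ≤ 4 ^ E.card * (3 * F.card) := Nat.mul_le_mul_left _ h3
      _ = 3 * (4 ^ E.card * F.card) := by ring
      _ ≤ 3 * (3 ^ E.card * 2 ^ Fintype.card Ω) := Nat.mul_le_mul_left _ ih'
      _ = 3 ^ (E.card + 1) * 2 ^ Fintype.card Ω := by ring

/-- maximal independent sets -/
theorem exists_indep {A : Type*} [Fintype A] [DecidableEq A] (conf : A → A → Prop)
    [DecidableRel conf] (hsymm : ∀ x y, conf x y → conf y x) (hrefl : ∀ x, conf x x) (n : ℕ)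
    (hn : ∀ e, (Finset.univ.filter (fun x => conf e x)).card ≤ n) :
    ∃ E : Finset A, (∀ e ∈ E, ∀ e' ∈ E, e ≠ e' → ¬ conf e e') ∧ Fintype.card A ≤ n * E.card := by
  have hne : ((Finset.univ : Finset (Finset A)).filter
      (fun E => ∀ e ∈ E, ∀ e' ∈ E, e ≠ e' → ¬ conf e e')).Nonempty :=
    ⟨∅, by simp⟩
  obtain ⟨E, hE, hmax⟩ := Finset.exists_max_image _ (fun E : Finset A => E.card) hne
  simp only [Finset.mem_filter, Finset.mem_univ, true_and] at hE hmax
  refine ⟨E, hE, ?_⟩
  have hcov : (Finset.univ : Finset A) ⊆ E.biUnion (fun e => Finset.univ.filter (fun x => conf e x)) := by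
    intro x _
    rw [Finset.mem_biUnion]
    by_contra hcon
    push Not at hcon
    simp only [Finset.mem_filter, Finset.mem_univ, true_and] at hcon
    have hx : x ∉ E := fun h => hcon x h (hrefl x)
    have h1 := hmax (insert x E) (by
      intro e he e' he' hee
      rcases Finset.mem_insert.mp he with h1 | h1
      · rcases Finset.mem_insert.mp he' with h2 | h2
        · exact absurd (h1.trans h2.symm) hee
        · subst h1
          exact fun h => hcon e' h2 (hsymm _ _ h)
      · rcases Finset.mem_insert.mp he' with h2 | h2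
        · subst h2
          exact hcon e h1
        · exact hE e h1 e' h2 hee)
    rw [Finset.card_insert_of_notMem hx] at h1
    omega
  calc Fintype.card A = (Finset.univ : Finset A).card := rfl
    _ ≤ _ := Finset.card_le_card hcov
    _ ≤ ∑ e ∈ E, (Finset.univ.filter (fun x => conf e x)).card := Finset.card_biUnion_le
    _ ≤ ∑ _e ∈ E, n := Finset.sum_le_sum fun e _ => hn e
    _ = n * E.card := by simp [mul_comm]

/-- supersets of a fixed set -/
theorem count_superset {Ω : Type*} [Fintype Ω] [DecidableEq Ω] (B : Finset Ω) :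
    2 ^ B.card * ((Finset.univ : Finset (Finset Ω)).filter (fun S => B ⊆ S)).card =
      2 ^ Fintype.card Ω := by
  have h : ((Finset.univ : Finset (Finset Ω)).filter (fun S => B ⊆ S)).card =
      (Bᶜ.powerset).card := by
    refine Finset.card_bij' (fun S _ => S \ B) (fun S _ => S ∪ B) ?_ ?_ ?_ ?_
    · intro S hS
      rw [Finset.mem_powerset]
      intro x hx
      rw [Finset.mem_compl]
      exact (Finset.mem_sdiff.mp hx).2
    · intro S _
      simp
    · intro S hS
      simp only [Finset.mem_filter, Finset.mem_univ, true_and] at hS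
      exact Finset.sdiff_union_of_subset hS
    · intro S hS
      rw [Finset.mem_powerset] at hS
      ext x
      simp only [Finset.mem_sdiff, Finset.mem_union]
      constructor
      · rintro ⟨h1 | h1, h2⟩
        · exact h1
        · exact absurd h1 h2
      · intro h1
        exact ⟨Or.inl h1, Finset.mem_compl.mp (hS h1)⟩
  rw [h, Finset.card_powerset, ← pow_add, Finset.card_compl]
  congr 1
  have := Finset.card_le_univ B
  omega

end Pool.Agent.K1H9.HF
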