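import Mathlib

set_option autoImplicit false

/-!
# Differences of elements of a multiplicative subgroup of finite index
-/

namespace Pool.Agent.K1H9.HF

open Finset

section FiniteField

variable {K : Type*} [Field K] [Fintype K] [DecidableEq K]

/-- second moment over the affine maps -/
theorem sum_sq (φ : K → ℤ) (hφ : ∀ x, φ x * φ x = φ x) :
    ∑ a : K, ∑ b : K, ((Fintype.card K : ℤ) * (∑ x, φ x * φ (a * x + b)) - (∑ x, φ x) ^ 2) ^ 2
      = (Fintype.card K : ℤ) ^ 2 * (∑ x, φ x) ^ 2 * ((Fintype.card K : ℤ) - ∑ x, φ x) := by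
  set q : ℤ := (Fintype.card K : ℤ) with hq
  set N : ℤ := ∑ x, φ x with hN
  -- first moment
  have h1 : ∑ a : K, ∑ b : K, (∑ x, φ x * φ (a * x + b)) = q * N ^ 2 := by
    have : ∀ a : K, ∑ b : K, (∑ x, φ x * φ (a * x + b)) = N ^ 2 := by
      intro a
      rw [Finset.sum_comm]
      have : ∀ x : K, ∑ b : K, φ x * φ (a * x + b) = φ x * N := by
        intro x
        rw [← Finset.mul_sum]
        congr 1
        exact Fintype.sum_equiv (Equiv.addLeft (a * x)) _ _ (fun b => rfl)
      rw [Finset.sum_congr rfl (fun x _ => this x), ← Finset.sum_mul, ← hN]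
      ring
    rw [Finset.sum_congr rfl (fun a _ => this a)]
    simp [hq]
  -- second moment
  have h2 : ∑ a : K, ∑ b : K, (∑ x, φ x * φ (a * x + b)) ^ 2 = q * N ^ 2 + N ^ 4 - N ^ 3 := by
    have e1 : ∀ a b : K, (∑ x, φ x * φ (a * x + b)) ^ 2 =
        ∑ x, ∑ x', φ x * φ x' * (φ (a * x + b) * φ (a * x' + b)) := by
      intro a b
      rw [sq, Finset.sum_mul_sum]
      refine Finset.sum_congr rfl fun x _ => Finset.sum_congr rfl fun x' _ => ?_
      ring
    have e2 : ∑ a : K, ∑ b : K, (∑ x, φ x * φ (a * x + b)) ^ 2 =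
        ∑ x, ∑ x', φ x * φ x' * ∑ a : K, ∑ b : K, (φ (a * x + b) * φ (a * x' + b)) := by
      simp_rw [e1]
      have : ∀ a : K, ∑ b : K, ∑ x, ∑ x', φ x * φ x' * (φ (a * x + b) * φ (a * x' + b)) =
          ∑ x, ∑ x', ∑ b : K, φ x * φ x' * (φ (a * x + b) * φ (a * x' + b)) := by
        intro a
        rw [Finset.sum_comm]
        refine Finset.sum_congr rfl fun x _ => ?_
        rw [Finset.sum_comm]
      simp_rw [this]
      rw [Finset.sum_comm]
      refine Finset.sum_congr rfl fun x _ => ?_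
      rw [Finset.sum_comm]
      refine Finset.sum_congr rfl fun x' _ => ?_
      rw [Finset.mul_sum]
      refine Finset.sum_congr rfl fun a _ => ?_
      rw [Finset.mul_sum]
    have e3 : ∀ x : K, ∑ a : K, ∑ b : K, (φ (a * x + b) * φ (a * x + b)) = q * N := by
      intro x
      have : ∀ a : K, ∑ b : K, (φ (a * x + b) * φ (a * x + b)) = N := by
        intro a
        simp_rw [hφ]
        exact Fintype.sum_equiv (Equiv.addLeft (a * x)) _ _ (fun b => rfl)
      rw [Finset.sum_congr rfl (fun a _ => this a)]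
      simp [hq]
    have e4 : ∀ x x' : K, x ≠ x' → ∑ a : K, ∑ b : K, (φ (a * x + b) * φ (a * x' + b)) = N ^ 2 := by
      intro x x' hne
      have hsub : x - x' ≠ 0 := sub_ne_zero.mpr hne
      have hbij : Function.Bijective (fun p : K × K => (p.1 * x + p.2, p.1 * x' + p.2)) := by
        refine (Finite.injective_iff_bijective).mp ?_
        rintro ⟨a, b⟩ ⟨a', b'⟩ h
        simp only [Prod.mk.injEq] at h
        have : (a - a') * (x - x') = 0 := by linear_combination h.1 - h.2
        have ha : a = a' := by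
          rcases mul_eq_zero.mp this with h0 | h0
          · exact sub_eq_zero.mp h0
          · exact absurd h0 hsub
        subst ha
        have hb : b = b' := by linear_combination h.1
        rw [hb]
      have := Function.Bijective.sum_comp hbij (fun p : K × K => φ p.1 * φ p.2)
      rw [Fintype.sum_prod_type, Fintype.sum_prod_type] at this
      rw [this, sq, Finset.sum_mul_sum]
    have e5 : ∀ x : K, ∑ x', φ x * φ x' * ∑ a : K, ∑ b : K, (φ (a * x + b) * φ (a * x' + b)) =
        φ x * (q * N) + φ x * N ^ 3 - φ x * N ^ 2 := by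
      intro x
      rw [← Finset.add_sum_erase _ _ (Finset.mem_univ x), e3]
      have : ∀ x' ∈ Finset.univ.erase x,
          φ x * φ x' * ∑ a : K, ∑ b : K, (φ (a * x + b) * φ (a * x' + b)) = φ x * φ x' * N ^ 2 := by
        intro x' hx'
        rw [e4 x x' (Finset.ne_of_mem_erase hx').symm]
      rw [Finset.sum_congr rfl this, ← Finset.sum_mul, ← Finset.mul_sum]
      have h3 : ∑ x' ∈ Finset.univ.erase x, φ x' = N - φ x := by
        rw [hN, ← Finset.add_sum_erase _ _ (Finset.mem_univ x)]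
        ring
      rw [h3]
      have := hφ x
      linear_combination (q * N - N ^ 2) * this
    rw [e2, Finset.sum_congr rfl (fun x _ => e5 x), Finset.sum_sub_distrib, Finset.sum_add_distrib,
      ← Finset.sum_mul, ← Finset.sum_mul, ← Finset.sum_mul, ← hN]
    ring
  have h3 : ∑ a : K, ∑ b : K, (q * (∑ x, φ x * φ (a * x + b)) - N ^ 2) ^ 2 =
      q ^ 2 * (∑ a : K, ∑ b : K, (∑ x, φ x * φ (a * x + b)) ^ 2)
        - 2 * q * N ^ 2 * (∑ a : K, ∑ b : K, (∑ x, φ x * φ (a * x + b))) + q ^ 2 * N ^ 4 := by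
    have : ∀ a b : K, (q * (∑ x, φ x * φ (a * x + b)) - N ^ 2) ^ 2 =
        q ^ 2 * (∑ x, φ x * φ (a * x + b)) ^ 2 - 2 * q * N ^ 2 * (∑ x, φ x * φ (a * x + b))
          + N ^ 4 := by
      intro a b; ring
    simp_rw [this, Finset.sum_add_distrib, Finset.sum_sub_distrib, ← Finset.mul_sum]
    simp [hq]
    ring
  rw [h3, h1, h2]
  ring

/-- If `G` has index `r` in the multiplicative group of a field with at least `16 r ^ 4` elements,
then every element is a difference of two elements of `G`. -/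
theorem finite_diff (G : Subgroup Kˣ) (r : ℕ) (hr : 1 ≤ r)
    (hcard : r * Nat.card G = Fintype.card K - 1) (hq : 16 * r ^ 4 ≤ Fintype.card K) (c : K) :
    ∃ g ∈ G, ∃ h ∈ G, c = (g : K) - (h : K) := by
  classical
  by_contra hcon
  push Not at hcon
  have hc0 : c ≠ 0 := by
    intro h
    exact hcon 1 G.one_mem 1 G.one_mem (by simp [h])
  set S : Finset K := Finset.univ.filter (fun x => ∃ g ∈ G, x = (g : K)) with hS
  have hScard : S.card = Nat.card G := by
    have : S = (Finset.univ.filter (fun g : Kˣ => g ∈ G)).map ⟨fun g : Kˣ => (g : K), Units.val_injective⟩ := by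
      ext x
      simp only [hS, Finset.mem_filter, Finset.mem_univ, true_and, Finset.mem_map,
        Function.Embedding.coeFn_mk]
      constructor
      · rintro ⟨g, hg, rfl⟩; exact ⟨g, hg, rfl⟩
      · rintro ⟨g, hg, rfl⟩; exact ⟨g, hg, rfl⟩
    rw [this, Finset.card_map, Nat.card_eq_fintype_card, Fintype.card_subtype]
  set φ : K → ℤ := fun x => if x ∈ S then 1 else 0 with hφd
  have hφ : ∀ x, φ x * φ x = φ x := by
    intro x; simp only [hφd]; split_ifs <;> norm_num
  have hN : ∑ x, φ x = (S.card : ℤ) := by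
    simp [hφd, Finset.sum_ite_mem]
  have key := sum_sq φ hφ
  rw [hN] at key
  set q : ℤ := (Fintype.card K : ℤ) with hqd
  set N : ℤ := (S.card : ℤ) with hNd
  -- vanishing terms
  have hvan : ∀ a ∈ S, ∀ b ∈ S.image (fun x => c * x), (∑ x, φ x * φ (a * x + b)) = 0 := by
    intro a ha b hb
    obtain ⟨y, hy, rfl⟩ := Finset.mem_image.mp hb
    refine Finset.sum_eq_zero fun x _ => ?_
    by_contra hne
    have hx : x ∈ S := by
      by_contra h; exact hne (by simp [hφd, h])
    have hx2 : a * x + c * y ∈ S := by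
      by_contra h; exact hne (by simp [hφd, h])
    simp only [hS, Finset.mem_filter, Finset.mem_univ, true_and] at ha hx hy hx2
    obtain ⟨g1, hg1, rfl⟩ := ha
    obtain ⟨g2, hg2, rfl⟩ := hx
    obtain ⟨g3, hg3, rfl⟩ := hy
    obtain ⟨g4, hg4, h4⟩ := hx2
    refine hcon (g3⁻¹ * g4) (G.mul_mem (G.inv_mem hg3) hg4) (g3⁻¹ * (g1 * g2))
      (G.mul_mem (G.inv_mem hg3) (G.mul_mem hg1 hg2)) ?_
    have h3 : (g3 : K) ≠ 0 := g3.ne_zero
    push_cast
    rw [← h4]
    field_simp
    ring
  have hlow : N ^ 2 * (N ^ 2) ^ 2 ≤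
      ∑ a : K, ∑ b : K, (q * (∑ x, φ x * φ (a * x + b)) - N ^ 2) ^ 2 := by
    have hcardim : (S.image (fun x => c * x)).card = S.card :=
      Finset.card_image_of_injective _ (mul_right_injective₀ hc0)
    calc N ^ 2 * (N ^ 2) ^ 2 = ∑ a ∈ S, ∑ b ∈ S.image (fun x => c * x), (N ^ 2) ^ 2 := by
          simp only [Finset.sum_const, hcardim, nsmul_eq_mul, hNd]
          ring
      _ = ∑ a ∈ S, ∑ b ∈ S.image (fun x => c * x),
            (q * (∑ x, φ x * φ (a * x + b)) - N ^ 2) ^ 2 := by
          refine Finset.sum_congr rfl fun a ha => Finset.sum_congr rfl fun b hb => ?_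
          rw [hvan a ha b hb]; ring
      _ ≤ ∑ a ∈ S, ∑ b : K, (q * (∑ x, φ x * φ (a * x + b)) - N ^ 2) ^ 2 := by
          refine Finset.sum_le_sum fun a _ => ?_
          exact Finset.sum_le_sum_of_subset_of_nonneg (Finset.subset_univ _)
            (fun _ _ _ => sq_nonneg _)
      _ ≤ _ := Finset.sum_le_sum_of_subset_of_nonneg (Finset.subset_univ _)
            (fun _ _ _ => Finset.sum_nonneg fun _ _ => sq_nonneg _)
  rw [key] at hlow
  have hKpos : 1 ≤ Fintype.card K := Fintype.card_pos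
  have hrN : (r : ℤ) * N = q - 1 := by
    have h := hcard
    rw [← hScard] at h
    have h' : r * S.card + 1 = Fintype.card K := by omega
    have : ((r * S.card + 1 : ℕ) : ℤ) = (Fintype.card K : ℤ) := by rw [h']
    push_cast at this
    rw [hqd, hNd]; linarith
  have hr' : (1 : ℤ) ≤ r := by exact_mod_cast hr
  have hq' : 16 * (r : ℤ) ^ 4 ≤ q := by
    rw [hqd]; exact_mod_cast hq
  have hr4 : (1 : ℤ) ≤ (r : ℤ) ^ 4 := one_le_pow₀ hr'
  have hq16 : (16 : ℤ) ≤ q := by linarith
  have hNpos : 0 < N := by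
    by_contra h
    push Not at h
    have : (r : ℤ) * N ≤ 0 := mul_nonpos_of_nonneg_of_nonpos (by linarith) h
    linarith
  have hN4 : N ^ 4 ≤ q ^ 2 * (q - N) := by
    have h2 : N ^ 2 * N ^ 4 ≤ N ^ 2 * (q ^ 2 * (q - N)) := by nlinarith [hlow]
    exact le_of_mul_le_mul_left h2 (by positivity)
  have hN5 : N ^ 4 ≤ q ^ 3 := by
    have : q ^ 2 * (q - N) ≤ q ^ 3 := by nlinarith [sq_nonneg q, hNpos]
    linarith
  have h6 : (q - 1) ^ 4 ≤ (r : ℤ) ^ 4 * q ^ 3 := by
    rw [← hrN, mul_pow]
    exact mul_le_mul_of_nonneg_left hN5 (by positivity)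
  have h7 : 16 * (q - 1) ^ 4 ≤ q ^ 4 := by
    have : (16 * (r : ℤ) ^ 4) * q ^ 3 ≤ q * q ^ 3 :=
      mul_le_mul_of_nonneg_right hq' (by positivity)
    nlinarith
  have h8 : (2 * (q - 1)) ^ 4 ≤ q ^ 4 := by
    calc (2 * (q - 1)) ^ 4 = 16 * (q - 1) ^ 4 := by ring
      _ ≤ q ^ 4 := h7
  have h9 : 2 * (q - 1) ≤ q := by
    by_contra h
    push Not at h
    exact absurd h8 (not_le.mpr (pow_lt_pow_left₀ h (by linarith) (by norm_num)))
  linarith

end FiniteField

end Pool.Agent.K1H9.HF
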