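import Pool.Agent.K1H9.HF.Glob

set_option autoImplicit false

/-!
# Numerical estimates and conclusion
-/

namespace Pool.Agent.K1H9.HF

theorem num1 (k : ℕ) (hk : 120 ≤ k) : 2 * (24 * k + 23) ^ 4 * 3 ^ k ≤ 4 ^ k := by
  induction k, hk using Nat.le_induction with
  | base => norm_num
  | succ k hk ih =>
    have h1 : (24 * (k + 1) + 23) ^ 4 * 3 ≤ 4 * (24 * k + 23) ^ 4 := by
      obtain ⟨j, rfl⟩ := Nat.exists_eq_add_of_le hk
      ring_nf
      nlinarith [Nat.zero_le j, Nat.zero_le (j^2), Nat.zero_le (j^3), Nat.zero_le (j^4)]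
    calc 2 * (24 * (k + 1) + 23) ^ 4 * 3 ^ (k + 1)
        = 2 * ((24 * (k + 1) + 23) ^ 4 * 3) * 3 ^ k := by ring
      _ ≤ 2 * (4 * (24 * k + 23) ^ 4) * 3 ^ k := by gcongr
      _ = 4 * (2 * (24 * k + 23) ^ 4 * 3 ^ k) := by ring
      _ ≤ 4 * 4 ^ k := by gcongr
      _ = 4 ^ (k + 1) := by ring

theorem num1' (r : ℕ) (hr : 4096 ≤ r) : 2 * r ^ 4 * 3 ^ (r / 24) ≤ 4 ^ (r / 24) := by
  have h1 : r ≤ 24 * (r / 24) + 23 := by omega
  calc 2 * r ^ 4 * 3 ^ (r / 24) ≤ 2 * (24 * (r / 24) + 23) ^ 4 * 3 ^ (r / 24) := by gcongr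
    _ ≤ _ := num1 _ (by omega)

theorem num2 (l : ℕ) (hl : 10 ≤ l) : 6 * ((l + 1) ^ 2 + l + 3) ≤ 2 ^ l := by
  induction l, hl using Nat.le_induction with
  | base => norm_num
  | succ l hl ih =>
    calc 6 * ((l + 1 + 1) ^ 2 + (l + 1) + 3) ≤ 2 * (6 * ((l + 1) ^ 2 + l + 3)) := by nlinarith
      _ ≤ 2 * 2 ^ l := by gcongr
      _ = 2 ^ (l + 1) := by ring

theorem num2' (r : ℕ) (hr : 4096 ≤ r) : 4 * r * (r + 1) ^ (Nat.log 2 r) ≤ 2 ^ (r / 6) := by
  set l := Nat.log 2 r with hl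
  have h1 : r < 2 ^ (l + 1) := Nat.lt_pow_succ_log_self (by norm_num) r
  have h2 : 2 ^ l ≤ r := Nat.pow_log_le_self 2 (by omega)
  have hl10 : 12 ≤ l := (Nat.le_log_iff_pow_le (by norm_num) (by omega)).mpr (by norm_num; omega)
  have h3 := num2 l (by omega)
  calc 4 * r * (r + 1) ^ l ≤ 4 * 2 ^ (l + 1) * (2 ^ (l + 1)) ^ l := by
        gcongr
        omega
    _ = 2 ^ (2 + (l + 1) + (l + 1) * l) := by
        rw [← pow_mul, show (4 : ℕ) = 2 ^ 2 by norm_num, ← pow_add, ← pow_add]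
    _ ≤ 2 ^ (r / 6) := by
        refine Nat.pow_le_pow_right (by norm_num) ?_
        rw [Nat.le_div_iff_mul_le (by norm_num)]
        nlinarith

theorem num3 (r : ℕ) (hr : 4096 ≤ r) : 64 * r ^ 5 * (r + 1).factorial ≤ 2 ^ (r * r / 6) := by
  set l := Nat.log 2 r with hl
  have h1 : r < 2 ^ (l + 1) := Nat.lt_pow_succ_log_self (by norm_num) r
  have h2 : 2 ^ l ≤ r := Nat.pow_log_le_self 2 (by omega)
  have hl10 : 12 ≤ l := (Nat.le_log_iff_pow_le (by norm_num) (by omega)).mpr (by norm_num; omega)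
  have h3 := num2 l (by omega)
  have h4 : (r + 1).factorial ≤ (r + 1) ^ (r + 1) := Nat.factorial_le_pow _
  have h5 : 12 * (l + 1) ≤ r := by nlinarith
  calc 64 * r ^ 5 * (r + 1).factorial ≤ 64 * (2 ^ (l + 1)) ^ 5 * (2 ^ (l + 1)) ^ (r + 1) := by
        refine Nat.mul_le_mul (Nat.mul_le_mul_left _ (Nat.pow_le_pow_left h1.le _)) (h4.trans ?_)
        exact Nat.pow_le_pow_left (by omega) _
    _ = 2 ^ (6 + (l + 1) * 5 + (l + 1) * (r + 1)) := by
        rw [← pow_mul, ← pow_mul, show (64 : ℕ) = 2 ^ 6 by norm_num, ← pow_add, ← pow_add]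
    _ ≤ 2 ^ (r * r / 6) := by
        refine Nat.pow_le_pow_right (by norm_num) ?_
        rw [Nat.le_div_iff_mul_le (by norm_num)]
        nlinarith

/-- the main inequality -/
theorem main_ineq (r : ℕ) (hr : 4096 ≤ r) :
    r * Set.ncard ((Quotient.mk (isoSetoid r)) '' {p | IsQ r p}) ≤
      Set.ncard ((Quotient.mk (isoSetoid r)) '' {p | IsHF r p}) := by
  obtain ⟨h1, h2⟩ := compare (r := r) (by omega) (num1' r hr)
  have h3 := lower_classes (r := r)
  have h4 := upper_classes (r := r)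
  have h5 := quot_classes (r := r)
  have h6 := num2' r hr
  have h7 := num3 r hr
  have hW := WW_pos (r := r)
  have hW2 := WW_le (r := r)
  set HH := Set.ncard ((Quotient.mk (isoSetoid r)) '' {p | IsHF r p})
  set C1 := Set.ncard ((Quotient.mk (isoSetoid r)) '' {p | IsHF r p ∧ Cond r p})
  set Q := Set.ncard ((Quotient.mk (isoSetoid r)) '' {p | IsQ r p})
  set nH := Set.ncard {p : Str r | IsHF r p}
  set nC := Set.ncard {p : Str r | IsHF r p ∧ Cond r p}
  set W := WW r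
  set L := (r + 1) ^ (Nat.log 2 r)
  -- `2 ^ (r/6) * C1 ≤ 2 * L * HH`
  have e1 : 2 ^ (r / 6) * C1 ≤ 2 * L * HH := by
    have : W * (2 ^ (r / 6) * C1) ≤ W * (2 * L * HH) := by
      calc W * (2 ^ (r / 6) * C1) = 2 ^ (r / 6) * (W * C1) := by ring
        _ ≤ 2 ^ (r / 6) * (L * nC) := by gcongr
        _ = L * (2 ^ (r / 6) * nC) := by ring
        _ ≤ L * (2 * nH) := by gcongr
        _ ≤ L * (2 * (W * HH)) := by gcongr
        _ = W * (2 * L * HH) := by ring
    exact Nat.le_of_mul_le_mul_left this hW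
  have e2 : 2 * r * C1 ≤ HH := by
    have hL : 0 < L := by positivity
    have : (2 * L) * (2 * r * C1) ≤ (2 * L) * HH := by
      calc (2 * L) * (2 * r * C1) = (4 * r * L) * C1 := by ring
        _ ≤ 2 ^ (r / 6) * C1 := by gcongr
        _ ≤ _ := e1
    exact Nat.le_of_mul_le_mul_left this (by positivity)
  have e3 : 2 * r * (16 * r ^ 4) ≤ HH := by
    have hF : 0 < (r + 1).factorial := Nat.factorial_pos _
    have : (r + 1).factorial * (2 * r * (16 * r ^ 4)) ≤ (r + 1).factorial * HH := by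
      have h8 : 2 * ((r + 1).factorial * (2 * r * (16 * r ^ 4))) ≤ 2 * ((r + 1).factorial * HH) := by
        calc 2 * ((r + 1).factorial * (2 * r * (16 * r ^ 4))) = 64 * r ^ 5 * (r + 1).factorial := by ring
          _ ≤ 2 ^ (r * r / 6) := h7
          _ ≤ 2 * nH := h2
          _ ≤ 2 * (W * HH) := by gcongr
          _ ≤ 2 * ((r + 1).factorial * HH) := by gcongr
      omega
    exact Nat.le_of_mul_le_mul_left this hF
  have e4 : 2 * (r * Q) ≤ 2 * HH := by
    calc 2 * (r * Q) ≤ 2 * (r * (C1 + 16 * r ^ 4)) := by gcongr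
      _ = 2 * r * C1 + 2 * r * (16 * r ^ 4) := by ring
      _ ≤ HH + HH := Nat.add_le_add e2 e3
      _ = 2 * HH := by ring
  omega

theorem tendsto_ratio : Filter.Tendsto (fun r : ℕ =>
    ((Set.ncard {C : Set (Str r) | ∃ p : Str r, IsQ r p ∧ C = {q | IsQ r q ∧ Iso r p q}} : ℕ) : ℝ) /
      ((Set.ncard {C : Set (Str r) | ∃ p : Str r, IsHF r p ∧ C = {q | IsHF r q ∧ Iso r p q}} : ℕ) : ℝ))
    Filter.atTop (nhds 0) := by
  have hlim : Filter.Tendsto (fun r : ℕ => 1 / (r : ℝ)) Filter.atTop (nhds 0) :=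
    tendsto_one_div_atTop_nhds_zero_nat
  refine squeeze_zero' (Filter.Eventually.of_forall fun r => by positivity) ?_ hlim
  filter_upwards [Filter.eventually_ge_atTop 4096] with r hr
  rw [ncard_classes, ncard_classes]
  have h := main_ineq r hr
  have hr0 : (0 : ℝ) < r := by exact_mod_cast (by omega : 0 < r)
  set Q := Set.ncard ((Quotient.mk (isoSetoid r)) '' {p | IsQ r p})
  set HH := Set.ncard ((Quotient.mk (isoSetoid r)) '' {p | IsHF r p})
  have h' : (r : ℝ) * Q ≤ HH := by exact_mod_cast h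
  rcases Nat.eq_zero_or_pos HH with h0 | h0
  · rw [h0]; simp
  · have h1 : (0 : ℝ) < HH := by exact_mod_cast h0
    rw [div_le_div_iff₀ h1 hr0]
    linarith

end Pool.Agent.K1H9.HF
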