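import Pool.Agent.K1H9.HF.Lab

set_option autoImplicit false

/-!
# Isomorphism classes
-/

namespace Pool.Agent.K1H9.HF

variable {r : ℕ}

/-- hyperfields with underlying set `Fin (r+1)` -/
def IsHF (r : ℕ) (p : Str r) : Prop :=
  (∃ u : Fin (r+1), u ≠ 0 ∧ ∀ a, p.1 u a = a) ∧
  (∀ a b, p.1 a b = p.1 b a) ∧
  (∀ a b c, p.1 (p.1 a b) c = p.1 a (p.1 b c)) ∧
  (∀ a, p.1 0 a = 0) ∧
  (∀ a b, a ≠ 0 → b ≠ 0 → p.1 a b ≠ 0) ∧
  (∀ a, a ≠ 0 → ∃ b, ∀ c, p.1 (p.1 a b) c = c) ∧
  (∀ a b, (p.2 a b).Nonempty) ∧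
  (∀ a b, p.2 a b = p.2 b a) ∧
  (∀ a b c, (⋃ x ∈ p.2 a b, p.2 x c) = ⋃ x ∈ p.2 b c, p.2 a x) ∧
  (∀ a, p.2 0 a = {a}) ∧
  (∀ a, ∃! b, (0 : Fin (r+1)) ∈ p.2 a b) ∧
  (∀ a b c d, a ∈ p.2 b c → (0 : Fin (r+1)) ∈ p.2 b d → c ∈ p.2 a d) ∧
  (∀ a b c, (fun x => p.1 a x) '' p.2 b c = p.2 (p.1 a b) (p.1 a c))

theorem isHF_iff (p : Str r) : IsHF r p ↔ MulAx r p.1 ∧ HypAx r p.1 p.2 := by
  constructor
  · rintro ⟨h1, h2, h3, h4, h5, h6, h7⟩
    exact ⟨⟨h1, h2, h3, h4, h5, h6⟩, h7⟩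
  · rintro ⟨⟨h1, h2, h3, h4, h5, h6⟩, h7⟩
    exact ⟨h1, h2, h3, h4, h5, h6, h7⟩

/-- transport of structure -/
def act (e : Equiv.Perm (Fin (r+1))) (p : Str r) : Str r :=
  (fun a b => e (p.1 (e.symm a) (e.symm b)), fun a b => e '' p.2 (e.symm a) (e.symm b))

theorem iso_iff (p q : Str r) : Iso r p q ↔ ∃ e : Equiv.Perm (Fin (r+1)), q = act e p := by
  constructor
  · rintro ⟨e, he⟩
    refine ⟨e, ?_⟩
    refine Prod.ext ?_ ?_
    · funext a b
      have := (he (e.symm a) (e.symm b)).1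
      simpa [act] using this.symm
    · funext a b
      have := (he (e.symm a) (e.symm b)).2
      simpa [act] using this.symm
  · rintro ⟨e, rfl⟩
    exact ⟨e, fun a b => by simp [act]⟩

theorem iso_refl (p : Str r) : Iso r p p := ⟨Equiv.refl _, fun a b => by simp⟩

theorem iso_symm {p q : Str r} (h : Iso r p q) : Iso r q p := by
  obtain ⟨e, he⟩ := h
  refine ⟨e.symm, fun a b => ?_⟩
  obtain ⟨h1, h2⟩ := he (e.symm a) (e.symm b)
  rw [e.apply_symm_apply, e.apply_symm_apply] at h1 h2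
  constructor
  · rw [← h1, e.symm_apply_apply]
  · rw [← h2, ← Set.image_comp]
    simp

theorem iso_trans {p q s : Str r} (h : Iso r p q) (h' : Iso r q s) : Iso r p s := by
  obtain ⟨e, he⟩ := h
  obtain ⟨e', he'⟩ := h'
  refine ⟨e.trans e', fun a b => ?_⟩
  constructor
  · simp only [Equiv.trans_apply]
    rw [(he a b).1, (he' _ _).1]
  · have : (e.trans e') '' p.2 a b = e' '' (e '' p.2 a b) := by
      rw [← Set.image_comp]; rfl
    rw [this, (he a b).2, (he' _ _).2]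
    rfl

/-- the setoid -/
def isoSetoid (r : ℕ) : Setoid (Str r) := ⟨Iso r, iso_refl, iso_symm, iso_trans⟩

theorem ncard_classes (P : Str r → Prop) :
    Set.ncard {C : Set (Str r) | ∃ p : Str r, P p ∧ C = {q | P q ∧ Iso r p q}} =
      Set.ncard ((Quotient.mk (isoSetoid r)) '' {p | P p}) := by
  let F : Quotient (isoSetoid r) → Set (Str r) := fun ω => {q | P q ∧ Quotient.mk (isoSetoid r) q = ω}
  have h1 : {C : Set (Str r) | ∃ p : Str r, P p ∧ C = {q | P q ∧ Iso r p q}} =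
      F '' ((Quotient.mk (isoSetoid r)) '' {p | P p}) := by
    ext C
    constructor
    · rintro ⟨p, hp, rfl⟩
      refine ⟨_, ⟨p, hp, rfl⟩, ?_⟩
      ext q
      constructor
      · rintro ⟨hq, h⟩
        exact ⟨hq, iso_symm (Quotient.exact h)⟩
      · rintro ⟨hq, h⟩
        exact ⟨hq, Quotient.sound (iso_symm h)⟩
    · rintro ⟨_, ⟨p, hp, rfl⟩, rfl⟩
      refine ⟨p, hp, ?_⟩
      ext q
      constructor
      · rintro ⟨hq, h⟩
        exact ⟨hq, iso_symm (Quotient.exact h)⟩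
      · rintro ⟨hq, h⟩
        exact ⟨hq, Quotient.sound (iso_symm h)⟩
  rw [h1]
  refine Set.InjOn.ncard_image ?_
  rintro _ ⟨p, hp, rfl⟩ _ ⟨q, hq, rfl⟩ h
  have : p ∈ F (Quotient.mk (isoSetoid r) p) := ⟨hp, rfl⟩
  rw [h] at this
  exact this.2

section invariance

variable {p : Str r} {e : Equiv.Perm (Fin (r+1))}

theorem symm_zero (he : e 0 = 0) : e.symm 0 = 0 := by
  rw [Equiv.symm_apply_eq, he]

theorem act_mulAx (he : e 0 = 0) (h : MulAx r p.1) : MulAx r (act e p).1 := by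
  have hs := symm_zero he
  obtain ⟨⟨u, hu, hu2⟩, h2, h3, h4, h5, h6⟩ := h
  have hne : ∀ a, a ≠ 0 → e.symm a ≠ 0 := by
    intro a ha h
    exact ha (by rw [← e.apply_symm_apply a, h, he])
  refine ⟨⟨e u, ?_, ?_⟩, ?_, ?_, ?_, ?_, ?_⟩
  · intro h; exact hu (e.injective (by rw [h, he]))
  · intro a; simp [act, hu2]
  · intro a b; simp only [act]; rw [h2]
  · intro a b c; simp only [act, e.symm_apply_apply]; rw [h3]
  · intro a; simp only [act]; rw [hs, h4, he]
  · intro a b ha hb h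
    refine h5 _ _ (hne a ha) (hne b hb) (e.injective ?_)
    rw [he]; exact h
  · intro a ha
    obtain ⟨b, hb⟩ := h6 _ (hne a ha)
    exact ⟨e b, fun c => by simp [act, hb]⟩

theorem act_hypAx (he : e 0 = 0) (h : HypAx r p.1 p.2) : HypAx r (act e p).1 (act e p).2 := by
  have hs := symm_zero he
  obtain ⟨h1, h2, h3, h4, h5, h6, h7⟩ := h
  have hmem : ∀ (x : Fin (r+1)) (T : Set (Fin (r+1))), x ∈ e '' T ↔ e.symm x ∈ T := by
    intro x T
    constructor
    · rintro ⟨y, hy, rfl⟩; simpa using hy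
    · intro h; exact ⟨_, h, by simp⟩
  refine ⟨?_, ?_, ?_, ?_, ?_, ?_, ?_⟩
  · intro a b; exact (h1 _ _).image _
  · intro a b; simp only [act]; rw [h2]
  · intro a b c
    ext d
    simp only [act, Set.mem_iUnion, exists_prop]
    have h8 := congrArg (fun T => e.symm d ∈ T) (h3 (e.symm a) (e.symm b) (e.symm c))
    simp only [Set.mem_iUnion, exists_prop, eq_iff_iff] at h8
    constructor
    · rintro ⟨x, hx, hd⟩
      rw [hmem] at hx hd
      obtain ⟨y, hy, hy2⟩ := h8.mp ⟨_, hx, hd⟩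
      exact ⟨e y, (hmem _ _).mpr (by simpa using hy), (hmem _ _).mpr (by simpa using hy2)⟩
    · rintro ⟨x, hx, hd⟩
      rw [hmem] at hx hd
      obtain ⟨y, hy, hy2⟩ := h8.mpr ⟨_, hx, hd⟩
      exact ⟨e y, (hmem _ _).mpr (by simpa using hy), (hmem _ _).mpr (by simpa using hy2)⟩
  · intro a
    simp only [act]
    rw [hs, h4]
    simp
  · intro a
    obtain ⟨b, hb, hb2⟩ := h5 (e.symm a)
    refine ⟨e b, ?_, ?_⟩
    · simp only [act]
      rw [hmem, hs]
      simpa using hb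
    · intro c hc
      simp only [act] at hc
      rw [hmem, hs] at hc
      rw [← hb2 _ hc]
      simp
  · intro a b c d hab hbd
    simp only [act] at hab hbd ⊢
    rw [hmem] at hab hbd ⊢
    rw [hs] at hbd
    exact h6 _ _ _ _ hab hbd
  · intro a b c
    simp only [act, e.symm_apply_apply]
    rw [← h7, ← Set.image_comp, ← Set.image_comp]
    congr 1
    funext x
    simp

theorem act_cond (he : e 0 = 0) (h : Cond r p) : Cond r (act e p) := by
  have hs := symm_zero he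
  obtain ⟨u, v, hu, h1, h2, h3⟩ := h
  have h4 : (act e p).2 (e u) (e v) = Set.univ := by
    simp only [act, e.symm_apply_apply]
    rw [h3, Set.image_univ, e.surjective.range_eq]
  refine ⟨e u, e v, ?_, ?_, ?_, h4⟩
  · intro h; exact hu (e.injective (by rw [h, he]))
  · intro a; simp [act, h1]
  · rw [h4]; exact Set.mem_univ _

theorem iso_zero {q : Str r} (hp : MulAx r p.1) (hq : MulAx r q.1) (h : Iso r p q) :
    ∃ e : Equiv.Perm (Fin (r+1)), e 0 = 0 ∧ q = act e p := by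
  obtain ⟨e, rfl⟩ := (iso_iff p q).mp h
  refine ⟨e, ?_, rfl⟩
  have h1 := hq.2.2.2.1 (e 0)
  rw [hq.2.1] at h1
  simp only [act, e.symm_apply_apply] at h1
  rw [hp.2.2.2.1] at h1
  exact h1

end invariance

/-- the number of relabellings -/
noncomputable def WW (r : ℕ) : ℕ := Set.ncard {e : Equiv.Perm (Fin (r+1)) | e 0 = 0}

theorem WW_pos : 0 < WW r := by
  rw [WW, Set.ncard_pos]
  exact ⟨1, rfl⟩

theorem WW_le : WW r ≤ (r+1).factorial := by
  have h := Set.ncard_le_ncard (Set.subset_univ {e : Equiv.Perm (Fin (r+1)) | e 0 = 0})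
    (Set.toFinite _)
  rw [Set.ncard_univ, Nat.card_eq_fintype_card, Fintype.card_perm, Fintype.card_fin] at h
  exact h

theorem ncard_le_mul_image {α β : Type*} [Finite α] (s : Set α) (f : α → β) (n : ℕ)
    (h : ∀ a ∈ s, Set.ncard {x ∈ s | f x = f a} ≤ n) : s.ncard ≤ n * (f '' s).ncard := by
  classical
  have := Fintype.ofFinite α
  have h1 := Finset.card_le_mul_card_image (s := s.toFinset) (f := f) n (by
    intro b hb
    obtain ⟨a, ha, rfl⟩ := Finset.mem_image.mp hb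
    have h2 := h a (by simpa using ha)
    rw [← Set.ncard_coe_finset]
    refine le_trans (le_of_eq ?_) h2
    congr 1
    ext x
    simp)
  rw [← Set.ncard_coe_finset, ← Set.ncard_coe_finset] at h1
  simpa using h1

theorem mul_image_le {α β : Type*} [Finite α] (s : Set α) (f : α → β) (n L : ℕ)
    (h : ∀ a ∈ s, n ≤ L * Set.ncard {x ∈ s | f x = f a}) : n * (f '' s).ncard ≤ L * s.ncard := by
  classical
  have := Fintype.ofFinite α
  have h1 : s.ncard = ∑ b ∈ s.toFinset.image f, Set.ncard {x ∈ s | f x = b} := by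
    have h2 := Finset.card_eq_sum_card_image f s.toFinset
    rw [← Set.ncard_coe_finset, Set.coe_toFinset] at h2
    rw [h2]
    refine Finset.sum_congr rfl fun b _ => ?_
    rw [← Set.ncard_coe_finset]
    congr 1
    ext x
    simp
  have h3 : (f '' s).ncard = (s.toFinset.image f).card := by
    rw [← Set.ncard_coe_finset]
    congr 1
    simp
  rw [h1, h3, Finset.mul_sum, mul_comm, ← smul_eq_mul, ← Finset.sum_const]
  refine Finset.sum_le_sum fun b hb => ?_
  obtain ⟨a, ha, rfl⟩ := Finset.mem_image.mp hb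
  exact h a (by simpa using ha)

theorem lower_classes :
    Set.ncard {p : Str r | IsHF r p} ≤
      WW r * Set.ncard ((Quotient.mk (isoSetoid r)) '' {p | IsHF r p}) := by
  refine ncard_le_mul_image _ _ _ ?_
  intro p hp
  have hsub : {x ∈ {p : Str r | IsHF r p} | Quotient.mk (isoSetoid r) x = Quotient.mk (isoSetoid r) p}
      ⊆ (fun e => act e p) '' {e : Equiv.Perm (Fin (r+1)) | e 0 = 0} := by
    rintro q ⟨hq, h⟩
    obtain ⟨e, he, rfl⟩ := iso_zero ((isHF_iff p).mp hp).1 ((isHF_iff q).mp hq).1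
      (iso_symm (Quotient.exact h))
    exact ⟨e, he, rfl⟩
  exact (Set.ncard_le_ncard hsub (Set.toFinite _)).trans (Set.ncard_image_le (Set.toFinite _))

theorem upper_classes :
    WW r * Set.ncard ((Quotient.mk (isoSetoid r)) '' {p | IsHF r p ∧ Cond r p}) ≤
      (r+1) ^ (Nat.log 2 r) * Set.ncard {p : Str r | IsHF r p ∧ Cond r p} := by
  refine mul_image_le _ _ _ _ ?_
  rintro p ⟨hp, hc⟩
  have hp' := (isHF_iff p).mp hp
  have hsub : (fun e => act e p) '' {e : Equiv.Perm (Fin (r+1)) | e 0 = 0} ⊆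
      {x ∈ {p : Str r | IsHF r p ∧ Cond r p} |
        Quotient.mk (isoSetoid r) x = Quotient.mk (isoSetoid r) p} := by
    rintro _ ⟨e, he, rfl⟩
    refine ⟨⟨(isHF_iff _).mpr ⟨act_mulAx he hp'.1, act_hypAx he hp'.2⟩, act_cond he hc⟩, ?_⟩
    exact Quotient.sound (iso_symm ((iso_iff _ _).mpr ⟨e, rfl⟩))
  refine le_trans ?_ (Nat.mul_le_mul_left _ (Set.ncard_le_ncard hsub (Set.toFinite _)))
  refine ncard_le_mul_image _ _ _ ?_
  intro e0 _
  refine le_trans ?_ (aut_bound hp'.1)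
  refine Set.ncard_le_ncard_of_injOn (fun e => e0⁻¹ * e) ?_ ?_ (Set.toFinite _)
  · rintro e ⟨-, h⟩ a b
    have h1 := congrFun (congrFun (congrArg Prod.fst h) (e a)) (e b)
    simp only [act, e.symm_apply_apply] at h1
    simp only [Equiv.Perm.coe_mul, Function.comp_apply]
    rw [h1]
    simp
  · intro e _ e' _ h
    exact mul_left_cancel h

theorem sum_over_mul (Q : (Fin (r+1) → Fin (r+1) → Fin (r+1)) →
    (Fin (r+1) → Fin (r+1) → Set (Fin (r+1))) → Prop) [Fintype (Fin (r+1) → Fin (r+1) → Fin (r+1))]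
    [DecidablePred (fun m : Fin (r+1) → Fin (r+1) → Fin (r+1) => MulAx r m)] :
    Set.ncard {p : Str r | MulAx r p.1 ∧ Q p.1 p.2} =
      ∑ m ∈ Finset.univ.filter (fun m => MulAx r m), Set.ncard {s | Q m s} := by
  classical
  have : Fintype (Str r) := Fintype.ofFinite _
  have h1 := Finset.card_eq_sum_card_fiberwise (f := Prod.fst)
    (s := (Finset.univ.filter (fun p : Str r => MulAx r p.1 ∧ Q p.1 p.2)))
    (t := Finset.univ.filter (fun m => MulAx r m)) (by
      intro p hp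
      simp only [Finset.coe_filter, Finset.mem_univ, true_and, Set.mem_ofPred_eq] at hp ⊢
      exact hp.1)
  have h2 : {p : Str r | MulAx r p.1 ∧ Q p.1 p.2} =
      ((Finset.univ.filter (fun p : Str r => MulAx r p.1 ∧ Q p.1 p.2) : Finset (Str r)) : Set (Str r)) := by
    ext p; simp
  rw [h2, Set.ncard_coe_finset, h1]
  refine Finset.sum_congr rfl fun m hm => ?_
  rw [← Set.ncard_coe_finset]
  have h3 : (((Finset.univ.filter (fun p : Str r => MulAx r p.1 ∧ Q p.1 p.2)).filter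
      (fun p => p.1 = m) : Finset (Str r)) : Set (Str r)) = (fun s => (m, s)) '' {s | Q m s} := by
    ext p
    simp only [Finset.coe_filter, Finset.mem_filter, Finset.mem_univ, true_and, Set.mem_ofPred_eq,
      Set.mem_image] at hm ⊢
    constructor
    · rintro ⟨⟨-, h⟩, rfl⟩
      exact ⟨p.2, h, rfl⟩
    · rintro ⟨s, hs, rfl⟩
      exact ⟨⟨hm, hs⟩, rfl⟩
  rw [h3]
  exact Set.ncard_image_of_injective _ (fun s s' h => congrArg Prod.snd h)

theorem compare (hr : 1 ≤ r) (hlarge : 2 * r ^ 4 * 3 ^ (r / 24) ≤ 4 ^ (r / 24)) :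
    2 ^ (r / 6) * Set.ncard {p : Str r | IsHF r p ∧ Cond r p} ≤ 2 * Set.ncard {p : Str r | IsHF r p} ∧
    2 ^ (r * r / 6) ≤ 2 * Set.ncard {p : Str r | IsHF r p} := by
  classical
  have : Fintype (Fin (r+1) → Fin (r+1) → Fin (r+1)) := Fintype.ofFinite _
  have e1 : {p : Str r | IsHF r p ∧ Cond r p} =
      {p : Str r | MulAx r p.1 ∧ (HypAx r p.1 p.2 ∧ Cond r (p.1, p.2))} := by
    ext p
    simp only [Set.mem_ofPred_eq]
    rw [isHF_iff, and_assoc]
  have e2 : {p : Str r | IsHF r p} = {p : Str r | MulAx r p.1 ∧ HypAx r p.1 p.2} := by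
    ext p
    simp only [Set.mem_ofPred_eq]
    rw [isHF_iff]
  rw [e1, e2, sum_over_mul (fun m s => HypAx r m s ∧ Cond r (m, s)),
    sum_over_mul (fun m s => HypAx r m s)]
  constructor
  · rw [Finset.mul_sum, Finset.mul_sum]
    refine Finset.sum_le_sum fun m hm => ?_
    simp only [Finset.mem_filter, Finset.mem_univ, true_and] at hm
    exact (lab_m hm hlarge).1
  · obtain ⟨m, hm⟩ := exists_mulAx hr
    refine (lab_m hm hlarge).2.trans (Nat.mul_le_mul_left _ ?_)
    exact Finset.single_le_sum (f := fun m => Set.ncard {s | HypAx r m s})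
      (fun _ _ => Nat.zero_le _) (by simpa using hm)

/-- classes of quotient hyperfields -/
theorem quot_classes :
    Set.ncard ((Quotient.mk (isoSetoid r)) '' {p | IsQ r p}) ≤
      Set.ncard ((Quotient.mk (isoSetoid r)) '' {p | IsHF r p ∧ Cond r p}) + 16 * r ^ 4 := by
  classical
  let Q2 : Set (Str r) := {p | ∃ (K : Type) (_ : Field K) (G : Subgroup Kˣ) (f : K → Fin (r+1)),
    IsQK r p K G f ∧ Finite K ∧ Nat.card K < 16 * r ^ 4}
  have hsub : (Quotient.mk (isoSetoid r)) '' {p | IsQ r p} ⊆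
      (Quotient.mk (isoSetoid r)) '' {p | IsHF r p ∧ Cond r p} ∪ (Quotient.mk (isoSetoid r)) '' Q2 := by
    rintro _ ⟨p, ⟨K, hK, G, f, h⟩, rfl⟩
    rcases h.dichotomy with h1 | h1
    · exact Or.inl ⟨p, ⟨(isHF_iff p).mpr ⟨h.mulAx, h.hypAx⟩, h1⟩, rfl⟩
    · exact Or.inr ⟨p, ⟨K, hK, G, f, h, h1⟩, rfl⟩
  refine (Set.ncard_le_ncard hsub (Set.toFinite _)).trans ((Set.ncard_union_le _ _).trans ?_)
  refine Nat.add_le_add_left ?_ _
  -- the finite fields
  have hex : ∀ ω : Quotient (isoSetoid r), ω ∈ (Quotient.mk (isoSetoid r)) '' Q2 →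
      ∃ n : ℕ, n < 16 * r ^ 4 ∧ ∃ p : Str r, Quotient.mk (isoSetoid r) p = ω ∧
        ∃ (K : Type) (_ : Field K) (G : Subgroup Kˣ) (f : K → Fin (r+1)),
        IsQK r p K G f ∧ Finite K ∧ Nat.card K = n := by
    rintro _ ⟨p, ⟨K, hK, G, f, h, h1, h2⟩, rfl⟩
    exact ⟨Nat.card K, h2, p, rfl, K, hK, G, f, h, h1, rfl⟩
  let g : Quotient (isoSetoid r) → ℕ := fun ω =>
    if h : ω ∈ (Quotient.mk (isoSetoid r)) '' Q2 then (hex ω h).choose else 0
  have h3 : Set.ncard ((Quotient.mk (isoSetoid r)) '' Q2) ≤ Set.ncard (Set.Iio (16 * r ^ 4)) := by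
    refine Set.ncard_le_ncard_of_injOn g ?_ ?_ (Set.finite_Iio _)
    · intro ω hω
      simp only [g, dif_pos hω]
      exact (hex ω hω).choose_spec.1
    · intro ω hω ω' hω' hgg
      simp only [g, dif_pos hω, dif_pos hω'] at hgg
      obtain ⟨p, hp, K, hK, G, f, h, hfin, hcard⟩ := (hex ω hω).choose_spec.2
      obtain ⟨p', hp', K', hK', G', f', h', hfin', hcard'⟩ := (hex ω' hω').choose_spec.2
      rw [← hp, ← hp']
      exact Quotient.sound (h.iso h' (by rw [hcard, hcard', hgg]))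
  refine h3.trans (le_of_eq ?_)
  rw [Set.ncard_eq_toFinset_card', Set.toFinset_Iio, Nat.card_Iio]

end Pool.Agent.K1H9.HF
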