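import Mathlib

set_option autoImplicit false

/-!
# Differences of elements of a subgroup of finite index: infinite fields
-/

namespace Pool.Agent.K1H9.HF

open Finset

/-- one-sided Ramsey sequences -/
theorem exists_seq {K Q : Type*} [Finite Q] (χ : K → K → Q) :
    ∀ (n : ℕ) (X : Set K), X.Infinite → ∃ (t : Fin n → K) (k : Fin n → Q),
      (∀ i, t i ∈ X) ∧ (∀ i j, i < j → t i ≠ t j ∧ χ (t i) (t j) = k i) := by
  intro n
  induction n with
  | zero =>
    intro X _
    exact ⟨Fin.elim0, Fin.elim0, fun i => i.elim0, fun i => i.elim0⟩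
  | succ n ih =>
    intro X hX
    obtain ⟨x, hx⟩ := hX.nonempty
    have hX' : (X \ {x}).Infinite := hX.sdiff (Set.finite_singleton x)
    have hu : (⋃ c : Q, {y ∈ X \ {x} | χ x y = c}) = X \ {x} := by
      ext y; simp
    have : ∃ c : Q, {y ∈ X \ {x} | χ x y = c}.Infinite := by
      by_contra hcon
      push Not at hcon
      apply hX'
      rw [← hu]
      exact Set.finite_iUnion fun c => (hcon c)
    obtain ⟨c, hc⟩ := this
    obtain ⟨t, k, h1, h2⟩ := ih _ hc
    refine ⟨Fin.cons x t, Fin.cons c k, ?_, ?_⟩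
    · intro i
      refine Fin.cases ?_ (fun i => ?_) i
      · simpa using hx
      · simpa using (h1 i).1.1
    · intro i j
      refine Fin.cases ?_ (fun i => ?_) i
      · refine Fin.cases ?_ (fun j => ?_) j
        · intro h; exact absurd h (lt_irrefl _)
        · intro _
          have := h1 j
          simp only [Fin.cons_zero, Fin.cons_succ]
          exact ⟨fun h => this.1.2 (by simp [h]), this.2⟩
      · refine Fin.cases ?_ (fun j => ?_) j
        · intro h; exact absurd h (Fin.not_lt_zero _)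
        · intro h
          simp only [Fin.cons_succ]
          exact h2 i j (Fin.succ_lt_succ_iff.mp h)

/-- monochromatic sequences -/
theorem exists_mono {K Q : Type*} [Finite Q] [Infinite K] (χ : K → K → Q) (m : ℕ) :
    ∃ (t : Fin m → K) (c : Q), ∀ i j, i < j → t i ≠ t j ∧ χ (t i) (t j) = c := by
  classical
  cases m with
  | zero =>
    have : Nonempty Q := ⟨χ (Classical.arbitrary K) (Classical.arbitrary K)⟩
    exact ⟨Fin.elim0, Classical.arbitrary Q, fun i => i.elim0⟩
  | succ m =>
  have := Fintype.ofFinite Q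
  obtain ⟨t, k, -, h⟩ := exists_seq χ (Fintype.card Q * m + 1) Set.univ Set.infinite_univ
  obtain ⟨c, hc⟩ := Fintype.exists_lt_card_fiber_of_mul_lt_card (f := k) (n := m) (by simp)
  obtain ⟨s, hs, hs2⟩ := Finset.exists_subset_card_eq (Nat.succ_le_of_lt hc)
  let e := s.orderEmbOfFin hs2
  refine ⟨fun i => t (e i), c, fun i j hij => ?_⟩
  have h1 := h (e i) (e j) (by simpa using hij)
  refine ⟨h1.1, ?_⟩
  rw [h1.2]
  have := hs (s.orderEmbOfFin_mem hs2 i)
  simpa using this

/-- If `G` has finite index in the multiplicative group of an infinite field, then every element is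
a difference of two elements of `G`. -/
theorem infinite_diff {K : Type*} [Field K] [Infinite K] (G : Subgroup Kˣ) [Finite (Kˣ ⧸ G)]
    (c : K) : ∃ g ∈ G, ∃ h ∈ G, c = (g : K) - (h : K) := by
  classical
  by_contra hcon
  push Not at hcon
  have hc0 : c ≠ 0 := by
    intro h
    exact hcon 1 G.one_mem 1 G.one_mem (by simp [h])
  have := Fintype.ofFinite (Kˣ ⧸ G)
  set r := Fintype.card (Kˣ ⧸ G) with hr
  let χ : K → K → Kˣ ⧸ G := fun x y =>
    if h : y - x ≠ 0 then ((Units.mk0 (y - x) h : Kˣ) : Kˣ ⧸ G) else 1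
  obtain ⟨t0, d, ht0⟩ := exists_mono χ (r + 1)
  obtain ⟨d0, rfl⟩ := QuotientGroup.mk_surjective d
  -- scaled sequence, whose differences lie in `c G`
  set t : Fin (r + 1) → K := fun i => c / (d0 : K) * t0 i with ht
  have htd : ∀ i j, i < j → ∃ g ∈ G, t j - t i = c * (g : K) := by
    intro i j hij
    obtain ⟨h1, h2⟩ := ht0 i j hij
    have h3 : t0 j - t0 i ≠ 0 := sub_ne_zero.mpr h1.symm
    simp only [χ, dif_pos h3] at h2
    have h4 := QuotientGroup.eq.mp h2.symm
    refine ⟨_, h4, ?_⟩
    have hd : (d0 : K) ≠ 0 := d0.ne_zero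
    simp only [ht]
    push_cast
    simp only [Units.val_mk0]
    field_simp
  have hnot : ∀ i j, i ≠ j → ∀ g ∈ G, ∀ h ∈ G, t j - t i ≠ (g : K) - (h : K) := by
    have aux : ∀ i j, i < j → ∀ g ∈ G, ∀ h ∈ G, t j - t i ≠ (g : K) - (h : K) := by
      intro i j hij g hg h hh heq
      obtain ⟨k, hk, hk2⟩ := htd i j hij
      refine hcon (k⁻¹ * g) (G.mul_mem (G.inv_mem hk) hg) (k⁻¹ * h)
        (G.mul_mem (G.inv_mem hk) hh) ?_
      have hk0 : (k : K) ≠ 0 := k.ne_zero
      push_cast
      rw [← mul_sub, ← heq, hk2]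
      field_simp
    intro i j hij g hg h hh heq
    rcases lt_or_gt_of_ne hij with h1 | h1
    · exact aux i j h1 g hg h hh heq
    · exact aux j i h1 h hh g hg (by linear_combination -heq)
  -- counting
  obtain ⟨y⟩ : Nonempty (Fin (r + 2) ↪ K) :=
    ⟨(Fin.valEmbedding).trans (Infinite.natEmbedding K)⟩
  let rep : Kˣ ⧸ G → Kˣ := Quotient.out
  let X : ((Kˣ ⧸ G) → Fin (r + 1)) × Fin (r + 2) → K :=
    fun p => y p.2 - ∑ κ, (rep κ : K) * t (p.1 κ)
  let T : Kˣ ⧸ G → Finset (((Kˣ ⧸ G) → Fin (r + 1)) × Fin (r + 2)) := fun κ =>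
    Finset.univ.filter (fun p => ∃ g ∈ G, X p = (rep κ : K) * (g : K))
  let T0 : Finset (((Kˣ ⧸ G) → Fin (r + 1)) × Fin (r + 2)) :=
    Finset.univ.filter (fun p => X p = 0)
  set W := (r + 1) ^ r with hW
  have hcardF : Fintype.card ((Kˣ ⧸ G) → Fin (r + 1)) = W := by
    rw [Fintype.card_fun, Fintype.card_fin, ← hr]
  have h0 : T0.card ≤ W := by
    rw [← hcardF, ← Finset.card_univ]
    refine Finset.card_le_card_of_injOn (fun p => p.1) (fun _ _ => Finset.mem_coe.mpr (Finset.mem_univ _)) ?_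
    rintro ⟨s, m⟩ h1 ⟨s', m'⟩ h2 h3
    simp only at h3
    subst h3
    simp only [T0, Finset.coe_filter, Finset.mem_univ, true_and, Set.mem_ofPred_eq, X] at h1 h2
    have : y m = y m' := by linear_combination h1 - h2
    rw [y.injective this]
  have hT : ∀ κ, (r + 1) * (T κ).card ≤ W * (r + 2) := by
    intro κ
    have hc1 : (r + 1) * (T κ).card = ((T κ) ×ˢ (Finset.univ : Finset (Fin (r + 1)))).card := by
      rw [Finset.card_product, Finset.card_univ, Fintype.card_fin]; ring
    have hc2 : W * (r + 2) = (Finset.univ : Finset (((Kˣ ⧸ G) → Fin (r + 1)) × Fin (r + 2))).card := by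
      rw [Finset.card_univ, Fintype.card_prod, hcardF, Fintype.card_fin]
    rw [hc1, hc2]
    refine Finset.card_le_card_of_injOn (fun p => (Function.update p.1.1 κ p.2, p.1.2))
      (fun _ _ => Finset.mem_coe.mpr (Finset.mem_univ _)) ?_
    rintro ⟨⟨s, m⟩, i⟩ h1 ⟨⟨s', m'⟩, i'⟩ h2 h3
    simp only [Finset.coe_product, Finset.coe_univ, Set.mem_prod, Set.mem_univ, and_true,
      Finset.mem_coe, T, Finset.mem_filter, Finset.mem_univ, true_and, X] at h1 h2
    simp only [Prod.mk.injEq] at h3
    obtain ⟨h4, rfl⟩ := h3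
    have hi : i = i' := by
      have := congrFun h4 κ
      simpa using this
    subst hi
    have hoff : ∀ κ', κ' ≠ κ → s κ' = s' κ' := by
      intro κ' hne
      have := congrFun h4 κ'
      simpa [Function.update_of_ne hne] using this
    have hs : s κ = s' κ := by
      by_contra hne
      obtain ⟨g, hg, h1⟩ := h1
      obtain ⟨g', hg', h2⟩ := h2
      refine hnot (s κ) (s' κ) hne g hg g' hg' ?_
      have hsum : ∑ κ', (rep κ' : K) * t (s κ') - ∑ κ', (rep κ' : K) * t (s' κ') =
          (rep κ : K) * t (s κ) - (rep κ : K) * t (s' κ) := by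
        rw [← Finset.sum_sub_distrib]
        rw [Finset.sum_eq_single κ]
        · intro b _ hb
          rw [hoff b hb]; ring
        · intro h; exact absurd (Finset.mem_univ _) h
      have hk0 : (rep κ : K) ≠ 0 := (rep κ).ne_zero
      have : (rep κ : K) * (t (s' κ) - t (s κ)) = (rep κ : K) * ((g : K) - (g' : K)) := by
        linear_combination h1 - h2 + hsum
      exact mul_left_cancel₀ hk0 this
    have : s = s' := by
      funext κ'
      by_cases h : κ' = κ
      · rw [h, hs]
      · exact hoff κ' h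
    rw [this]
  have hcover : (Finset.univ : Finset (((Kˣ ⧸ G) → Fin (r + 1)) × Fin (r + 2))) ⊆
      T0 ∪ Finset.univ.biUnion T := by
    intro p _
    by_cases hp : X p = 0
    · exact Finset.mem_union_left _ (by simp [T0, hp])
    · refine Finset.mem_union_right _ ?_
      rw [Finset.mem_biUnion]
      refine ⟨((Units.mk0 (X p) hp : Kˣ) : Kˣ ⧸ G), Finset.mem_univ _, ?_⟩
      simp only [T, Finset.mem_filter, Finset.mem_univ, true_and]
      have h1 : ((rep ((Units.mk0 (X p) hp : Kˣ) : Kˣ ⧸ G) : Kˣ) : Kˣ ⧸ G) =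
          ((Units.mk0 (X p) hp : Kˣ) : Kˣ ⧸ G) := QuotientGroup.out_eq' _
      have h2 := QuotientGroup.eq.mp h1
      refine ⟨_, h2, ?_⟩
      rw [← Units.val_mul, mul_inv_cancel_left, Units.val_mk0]
  have hfin := (Finset.card_le_card hcover).trans (Finset.card_union_le _ _)
  have hfin2 : (Finset.univ.biUnion T).card ≤ ∑ κ, (T κ).card := Finset.card_biUnion_le
  have hc2 : (Finset.univ : Finset (((Kˣ ⧸ G) → Fin (r + 1)) × Fin (r + 2))).card = W * (r + 2) := by
    rw [Finset.card_univ, Fintype.card_prod, hcardF, Fintype.card_fin]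
  have hsum : (r + 1) * ∑ κ, (T κ).card ≤ r * (W * (r + 2)) := by
    rw [Finset.mul_sum]
    calc ∑ κ, (r + 1) * (T κ).card ≤ ∑ _κ : Kˣ ⧸ G, W * (r + 2) := Finset.sum_le_sum fun κ _ => hT κ
      _ = r * (W * (r + 2)) := by simp [hr]
  have hWpos : 0 < W := by rw [hW]; positivity
  have h9 : (r + 1) * (W * (r + 2)) ≤ (r + 1) * W + r * (W * (r + 2)) := by
    calc (r + 1) * (W * (r + 2)) ≤ (r + 1) * (T0.card + ∑ κ, (T κ).card) := by
          rw [← hc2]; exact Nat.mul_le_mul_left _ (by omega)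
      _ = (r + 1) * T0.card + (r + 1) * ∑ κ, (T κ).card := by ring
      _ ≤ _ := by
          have := Nat.mul_le_mul_left (r + 1) h0
          omega
  nlinarith

end Pool.Agent.K1H9.HF
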