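import Pool.Agent.K1H9.HF.Quot
import Pool.Agent.K1H9.HF.Abs2

set_option autoImplicit false

/-!
# Labelled hyperfields with a fixed multiplication
-/

namespace Pool.Agent.K1H9.HF

/-- small generating sets -/
theorem exists_small_gen (A : Type*) [Group A] [Finite A] :
    ∃ S : Finset A, Subgroup.closure (S : Set A) = ⊤ ∧ 2 ^ S.card ≤ Nat.card A := by
  classical
  have := Fintype.ofFinite A
  have hne : ((Finset.univ : Finset (Finset A)).filter
      (fun S : Finset A => 2 ^ S.card ≤ Nat.card (Subgroup.closure (S : Set A)))).Nonempty := by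
    refine ⟨∅, ?_⟩
    simp only [Finset.mem_filter, Finset.mem_univ, true_and, Finset.card_empty, pow_zero]
    exact Nat.card_pos
  obtain ⟨S, hS, hmax⟩ := Finset.exists_max_image _
    (fun S : Finset A => Nat.card (Subgroup.closure (S : Set A))) hne
  simp only [Finset.mem_filter, Finset.mem_univ, true_and] at hS hmax
  have htop : Subgroup.closure (S : Set A) = ⊤ := by
    by_contra hcon
    obtain ⟨x, hx⟩ : ∃ x, x ∉ Subgroup.closure (S : Set A) := by
      by_contra h
      push Not at h
      exact hcon (eq_top_iff.mpr fun x _ => h x)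
    have hlt : Subgroup.closure (S : Set A) < Subgroup.closure ((insert x S : Finset A) : Set A) := by
      refine lt_of_le_of_ne (Subgroup.closure_mono (by simp)) ?_
      intro h
      apply hx
      rw [h]
      exact Subgroup.subset_closure (by simp)
    have hdvd := Subgroup.card_dvd_of_le hlt.le
    obtain ⟨k, hk⟩ := hdvd
    have hk2 : 2 ≤ k := by
      have hpos : 0 < Nat.card (Subgroup.closure ((insert x S : Finset A) : Set A)) := Nat.card_pos
      rcases Nat.lt_or_ge k 2 with h | h
      · interval_cases k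
        · omega
        · exfalso
          rw [mul_one] at hk
          exact hlt.ne (Subgroup.eq_of_le_of_card_ge hlt.le (le_of_eq hk))
      · exact h
    have hpos : 0 < Nat.card (Subgroup.closure (S : Set A)) := Nat.card_pos
    have hxS : x ∉ S := fun h => hx (Subgroup.subset_closure h)
    have h1 := hmax (insert x S) (by
      rw [Finset.card_insert_of_notMem hxS, hk, pow_succ]
      exact Nat.mul_le_mul hS hk2)
    rw [hk] at h1
    nlinarith
  refine ⟨S, htop, ?_⟩
  rw [htop] at hS
  simpa using hS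

section

variable {r : ℕ} {m : Fin (r+1) → Fin (r+1) → Fin (r+1)}

/-- a copy of `Fin (r+1)` -/
def HH (r : ℕ) (m : Fin (r+1) → Fin (r+1) → Fin (r+1)) (_ : MulAx r m) : Type := Fin (r+1)

instance (h : MulAx r m) : Finite (HH r m h) := inferInstanceAs (Finite (Fin (r+1)))

theorem MulAx.inv_exists (h : MulAx r m) (a : Fin (r+1)) :
    ∃ b, (a ≠ 0 → m a b = h.1.choose) ∧ (a = 0 → b = 0) := by
  by_cases ha : a = 0
  · exact ⟨0, fun h => absurd ha h, fun _ => rfl⟩
  · obtain ⟨b, hb⟩ := h.2.2.2.2.2 a ha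
    refine ⟨b, fun _ => ?_, fun h => absurd h ha⟩
    have h1 := hb h.1.choose
    rw [h.2.1, h.1.choose_spec.2] at h1
    exact h1

/-- the group with zero of a labelled multiplication -/
noncomputable instance cgwz (h : MulAx r m) : CommGroupWithZero (HH r m h) where
  mul := m
  mul_assoc := h.2.2.1
  one := h.1.choose
  one_mul := h.1.choose_spec.2
  mul_one := fun a => (h.2.1 a _).trans (h.1.choose_spec.2 a)
  zero := (0 : Fin (r+1))
  zero_mul := h.2.2.2.1
  mul_zero := fun a => (h.2.1 a _).trans (h.2.2.2.1 a)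
  mul_comm := h.2.1
  inv := fun a => (h.inv_exists a).choose
  exists_pair_ne := ⟨h.1.choose, (0 : Fin (r+1)), h.1.choose_spec.1⟩
  inv_zero := (h.inv_exists 0).choose_spec.2 rfl
  mul_inv_cancel := fun a ha => (h.inv_exists a).choose_spec.1 ha

theorem card_units_HH (h : MulAx r m) : Nat.card (HH r m h)ˣ = r := by
  classical
  have e : (HH r m h)ˣ ≃ {a : HH r m h // a ≠ 0} := unitsEquivNeZero
  rw [Nat.card_congr e]
  have e2 : {a : HH r m h // a ≠ 0} ≃ {a : Fin (r+1) // a ≠ 0} := Equiv.refl _
  rw [Nat.card_congr e2, Nat.card_eq_fintype_card, Fintype.card_subtype_compl,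
    Fintype.card_fin, Fintype.card_unique, Nat.add_sub_cancel]

theorem unit_unique (h : MulAx r m) {u : Fin (r+1)} (hu : ∀ a, m u a = a) : u = h.1.choose := by
  have h1 := hu h.1.choose
  rw [h.2.1, h.1.choose_spec.2] at h1
  exact h1

theorem lab_m (h : MulAx r m) (hlarge : 2 * r ^ 4 * 3 ^ (r / 24) ≤ 4 ^ (r / 24)) :
    2 ^ (r / 6) * Set.ncard {s : Fin (r+1) → Fin (r+1) → Set (Fin (r+1)) |
      HypAx r m s ∧ Cond r (m, s)} ≤
      2 * Set.ncard {s : Fin (r+1) → Fin (r+1) → Set (Fin (r+1)) | HypAx r m s} ∧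
    2 ^ (r * r / 6) ≤ 2 * Set.ncard {s : Fin (r+1) → Fin (r+1) → Set (Fin (r+1)) | HypAx r m s} := by
  have key := main_abs (H := HH r m h) r (card_units_HH h) hlarge
  have e1 : {s : Fin (r+1) → Fin (r+1) → Set (Fin (r+1)) | HypAx r m s} =
      {s : HH r m h → HH r m h → Set (HH r m h) | HypAdd s} := rfl
  have e2 : {s : Fin (r+1) → Fin (r+1) → Set (Fin (r+1)) | HypAx r m s ∧ Cond r (m, s)} ⊆
      {s : HH r m h → HH r m h → Set (HH r m h) |
        HypAdd s ∧ ∃ e, (0 : HH r m h) ∈ s 1 e ∧ s 1 e = Set.univ} := by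
    rintro s ⟨h1, u, e, -, h2, h3, h4⟩
    refine ⟨h1, e, ?_⟩
    have : u = (1 : HH r m h) := unit_unique h h2
    rw [this] at h3 h4
    exact ⟨h3, h4⟩
  rw [e1]
  refine ⟨le_trans (Nat.mul_le_mul_left _ (Set.ncard_le_ncard e2 (Set.toFinite _))) key.1, key.2⟩

theorem aut_bound_abs {H : Type*} [CommGroupWithZero H] [Finite H] :
    Set.ncard {e : Equiv.Perm H | ∀ a b, e (a * b) = e a * e b} ≤
      (Nat.card H) ^ (Nat.log 2 (Nat.card Hˣ)) := by
  classical
  obtain ⟨S, hS, hcard⟩ := exists_small_gen Hˣ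
  have hlog : S.card ≤ Nat.log 2 (Nat.card Hˣ) :=
    (Nat.le_log_iff_pow_le (by norm_num) Nat.card_pos.ne').mpr hcard
  have h1 : Set.ncard {e : Equiv.Perm H | ∀ a b, e (a * b) = e a * e b} ≤
      Set.ncard (Set.univ : Set (S → H)) := by
    refine Set.ncard_le_ncard_of_injOn
      (fun e (x : S) => e ((x : Hˣ) : H)) (fun _ _ => Set.mem_univ _) ?_ (Set.toFinite _)
    intro e he e' he' hee
    have hmul : ∀ (e : Equiv.Perm H), (∀ a b, e (a * b) = e a * e b) →
        ∃ φ : H →* H, (∀ x, φ x = e x) ∧ e 0 = 0 := by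
      intro e he
      have h0 : e 0 = 0 := by
        have h2 := he 0 (e.symm 0)
        rw [zero_mul, e.apply_symm_apply, mul_zero] at h2
        exact h2
      have hone : e 1 = 1 := by
        have hne : e 1 ≠ 0 := by
          rw [← h0]
          exact fun h3 => one_ne_zero (e.injective h3)
        have h2 := he 1 1
        rw [one_mul] at h2
        exact (mul_eq_left₀ hne).mp h2.symm
      exact ⟨{ toFun := fun x => e x, map_one' := hone, map_mul' := he }, fun x => rfl, h0⟩
    obtain ⟨φ, hφ, h0⟩ := hmul e he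
    obtain ⟨φ', hφ', h0'⟩ := hmul e' he'
    have hunits : Units.map φ = Units.map φ' := by
      refine MonoidHom.eq_of_eqOn_top ?_
      rw [← hS]
      refine MonoidHom.eqOn_closure ?_
      intro x hx
      ext
      simp only [Units.coe_map]
      rw [hφ, hφ']
      exact congrFun hee ⟨x, hx⟩
    ext1 x
    by_cases hx : x = 0
    · rw [hx, h0, h0']
    · have h5 := congrArg (fun F => ((F (Units.mk0 x hx) : Hˣ) : H)) hunits
      simp only [Units.coe_map, Units.val_mk0] at h5
      rw [hφ, hφ'] at h5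
      exact h5
  refine h1.trans ?_
  rw [Set.ncard_univ, Nat.card_fun, Nat.card_eq_fintype_card (α := S), Fintype.card_coe]
  exact Nat.pow_le_pow_right Nat.card_pos hlog

theorem aut_bound (h : MulAx r m) :
    Set.ncard {e : Equiv.Perm (Fin (r+1)) | ∀ a b, e (m a b) = m (e a) (e b)} ≤
      (r + 1) ^ (Nat.log 2 r) := by
  have key := aut_bound_abs (H := HH r m h)
  rw [card_units_HH] at key
  have h2 : Nat.card (HH r m h) = r + 1 := by
    have : Nat.card (HH r m h) = Nat.card (Fin (r+1)) := rfl
    rw [this, Nat.card_eq_fintype_card, Fintype.card_fin]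
  rw [h2] at key
  exact key

/-- there is a labelled multiplication -/
theorem exists_mulAx (hr : 1 ≤ r) : ∃ m : Fin (r+1) → Fin (r+1) → Fin (r+1), MulAx r m := by
  classical
  have : NeZero r := ⟨by omega⟩
  have hcard : Nat.card (WithZero (Multiplicative (ZMod r))) = r + 1 := by
    have h1 : Nat.card (WithZero (Multiplicative (ZMod r))) = Nat.card (Option (ZMod r)) := rfl
    rw [h1, Finite.card_option, Nat.card_zmod]
  have : Finite (WithZero (Multiplicative (ZMod r))) :=
    Nat.finite_of_card_ne_zero (by rw [hcard]; omega)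
  let e0 : WithZero (Multiplicative (ZMod r)) ≃ Fin (r+1) := Finite.equivFinOfCardEq hcard
  let e : WithZero (Multiplicative (ZMod r)) ≃ Fin (r+1) := e0.trans (Equiv.swap (e0 0) 0)
  have he0 : e 0 = 0 := by simp [e]
  have hes : e.symm 0 = 0 := by rw [← he0, e.symm_apply_apply]
  have hne : ∀ a, a ≠ 0 → e.symm a ≠ 0 := by
    intro a ha h
    apply ha
    rw [← e.apply_symm_apply a, h, he0]
  refine ⟨fun a b => e (e.symm a * e.symm b), ⟨e 1, ?_, ?_⟩, ?_, ?_, ?_, ?_, ?_⟩
  · rw [← he0]
    exact fun h => one_ne_zero (e.injective h)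
  · intro a; simp
  · intro a b; simp [mul_comm]
  · intro a b c; simp [mul_assoc]
  · intro a; simp [hes, he0]
  · intro a b ha hb
    rw [← he0]
    intro h
    exact mul_ne_zero (hne a ha) (hne b hb) (e.injective h)
  · intro a ha
    refine ⟨e (e.symm a)⁻¹, fun c => ?_⟩
    simp [hne a ha]

end

end Pool.Agent.K1H9.HF
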