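import Pool.Agent.K1H9.HF.Diff
import Pool.Agent.K1H9.HF.Inf

set_option autoImplicit false

/-!
# Quotient hyperfields
-/

namespace Pool.Agent.K1H9.HF

/-- labelled structures -/
abbrev Str (r : ℕ) := (Fin (r+1) → Fin (r+1) → Fin (r+1)) × (Fin (r+1) → Fin (r+1) → Set (Fin (r+1)))

/-- the axioms on the multiplication -/
def MulAx (r : ℕ) (m : Fin (r+1) → Fin (r+1) → Fin (r+1)) : Prop :=
  (∃ u : Fin (r+1), u ≠ 0 ∧ ∀ a, m u a = a) ∧
  (∀ a b, m a b = m b a) ∧
  (∀ a b c, m (m a b) c = m a (m b c)) ∧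
  (∀ a, m 0 a = 0) ∧
  (∀ a b, a ≠ 0 → b ≠ 0 → m a b ≠ 0) ∧
  (∀ a, a ≠ 0 → ∃ b, ∀ c, m (m a b) c = c)

/-- the axioms on the hyperaddition -/
def HypAx (r : ℕ) (m : Fin (r+1) → Fin (r+1) → Fin (r+1))
    (s : Fin (r+1) → Fin (r+1) → Set (Fin (r+1))) : Prop :=
  (∀ a b, (s a b).Nonempty) ∧
  (∀ a b, s a b = s b a) ∧
  (∀ a b c, (⋃ x ∈ s a b, s x c) = ⋃ x ∈ s b c, s a x) ∧
  (∀ a, s 0 a = {a}) ∧
  (∀ a, ∃! b, (0 : Fin (r+1)) ∈ s a b) ∧
  (∀ a b c d, a ∈ s b c → (0 : Fin (r+1)) ∈ s b d → c ∈ s a d) ∧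
  (∀ a b c, (fun x => m a x) '' s b c = s (m a b) (m a c))

/-- quotient data -/
def IsQK (r : ℕ) (p : Str r) (K : Type) [Field K] (G : Subgroup Kˣ) (f : K → Fin (r+1)) : Prop :=
  Function.Surjective f ∧ f 0 = 0 ∧
  (∀ x y : K, f x = f y ↔ ∃ g ∈ G, y = x * (g : K)) ∧
  (∀ x y : K, f (x * y) = p.1 (f x) (f y)) ∧
  (∀ x y : K, p.2 (f x) (f y) = {z | ∃ g ∈ G, ∃ h ∈ G, z = f (x * (g : K) + y * (h : K))})

/-- quotient hyperfields -/
def IsQ (r : ℕ) (p : Str r) : Prop :=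
  ∃ (K : Type) (_ : Field K), ∃ G : Subgroup Kˣ, ∃ f : K → Fin (r+1), IsQK r p K G f

/-- `1 ⊞ (-1)` is everything -/
def Cond (r : ℕ) (p : Str r) : Prop :=
  ∃ u e : Fin (r+1), u ≠ 0 ∧ (∀ a, p.1 u a = a) ∧ 0 ∈ p.2 u e ∧ p.2 u e = Set.univ

section

variable {r : ℕ} {p : Str r} {K : Type} [Field K] {G : Subgroup Kˣ} {f : K → Fin (r+1)}

theorem IsQK.eq_zero (h : IsQK r p K G f) {x : K} : f x = 0 ↔ x = 0 := by
  obtain ⟨-, h0, h1, -, -⟩ := h
  constructor
  · intro hx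
    rw [← h0] at hx
    obtain ⟨g, -, hg⟩ := (h1 x 0).mp hx
    rcases mul_eq_zero.mp hg.symm with h | h
    · exact h
    · exact absurd h g.ne_zero
  · rintro rfl; exact h0

theorem IsQK.mulAx (h : IsQK r p K G f) : MulAx r p.1 := by
  have hz := fun {x : K} => h.eq_zero (x := x)
  obtain ⟨hs, h0, h1, hm, -⟩ := h
  refine ⟨⟨f 1, fun h => one_ne_zero (hz.mp h), ?_⟩, ?_, ?_, ?_, ?_, ?_⟩
  · intro a
    obtain ⟨x, rfl⟩ := hs a
    rw [← hm, one_mul]
  · intro a b
    obtain ⟨x, rfl⟩ := hs a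
    obtain ⟨y, rfl⟩ := hs b
    rw [← hm, ← hm, mul_comm]
  · intro a b c
    obtain ⟨x, rfl⟩ := hs a
    obtain ⟨y, rfl⟩ := hs b
    obtain ⟨z, rfl⟩ := hs c
    rw [← hm, ← hm, ← hm, ← hm, mul_assoc]
  · intro a
    obtain ⟨x, rfl⟩ := hs a
    rw [← h0, ← hm, zero_mul]
  · intro a b ha hb
    obtain ⟨x, rfl⟩ := hs a
    obtain ⟨y, rfl⟩ := hs b
    rw [← hm]
    rw [Ne, hz] at ha hb ⊢
    exact mul_ne_zero ha hb
  · intro a ha
    obtain ⟨x, rfl⟩ := hs a
    rw [Ne, hz] at ha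
    refine ⟨f x⁻¹, fun c => ?_⟩
    obtain ⟨z, rfl⟩ := hs c
    rw [← hm, ← hm, mul_inv_cancel₀ ha, one_mul]

theorem IsQK.hypAx (h : IsQK r p K G f) : HypAx r p.1 p.2 := by
  have hz := fun {x : K} => h.eq_zero (x := x)
  obtain ⟨hs, h0, h1, hm, ha⟩ := h
  have hsc : ∀ (x : K) (g : Kˣ), g ∈ G → f (x * (g : K)) = f x := fun x g hg =>
    ((h1 x _).mpr ⟨g, hg, rfl⟩).symm
  refine ⟨?_, ?_, ?_, ?_, ?_, ?_, ?_⟩
  · intro a b
    obtain ⟨x, rfl⟩ := hs a
    obtain ⟨y, rfl⟩ := hs b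
    rw [ha]
    exact ⟨_, 1, G.one_mem, 1, G.one_mem, rfl⟩
  · intro a b
    obtain ⟨x, rfl⟩ := hs a
    obtain ⟨y, rfl⟩ := hs b
    rw [ha, ha]
    ext z
    constructor
    · rintro ⟨g, hg, h, hh, rfl⟩
      exact ⟨h, hh, g, hg, congrArg f (add_comm _ _)⟩
    · rintro ⟨g, hg, h, hh, rfl⟩
      exact ⟨h, hh, g, hg, congrArg f (add_comm _ _)⟩
  · intro a b c
    obtain ⟨x, rfl⟩ := hs a
    obtain ⟨y, rfl⟩ := hs b
    obtain ⟨z, rfl⟩ := hs c
    rw [ha, ha]
    ext w
    simp only [Set.mem_iUnion, exists_prop]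
    constructor
    · rintro ⟨t, ⟨g, hg, h, hh, rfl⟩, hw⟩
      rw [ha] at hw
      obtain ⟨g', hg', h', hh', rfl⟩ := hw
      refine ⟨f (y * ((h * g' : Kˣ) : K) + z * (h' : K)), ⟨h * g', G.mul_mem hh hg', h', hh', rfl⟩, ?_⟩
      rw [ha]
      refine ⟨g * g', G.mul_mem hg hg', 1, G.one_mem, ?_⟩
      congr 1
      push_cast
      ring
    · rintro ⟨t, ⟨g, hg, h, hh, rfl⟩, hw⟩
      rw [ha] at hw
      obtain ⟨g', hg', h', hh', rfl⟩ := hw
      refine ⟨f (x * (g' : K) + y * ((g * h' : Kˣ) : K)), ⟨g', hg', g * h', G.mul_mem hg hh', rfl⟩, ?_⟩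
      rw [ha]
      refine ⟨1, G.one_mem, h * h', G.mul_mem hh hh', ?_⟩
      congr 1
      push_cast
      ring
  · intro a
    obtain ⟨x, rfl⟩ := hs a
    rw [← h0, ha]
    ext w
    rw [Set.mem_singleton_iff]
    constructor
    · rintro ⟨g, hg, h, hh, rfl⟩
      rw [zero_mul, zero_add, hsc _ _ hh]
    · rintro rfl
      exact ⟨1, G.one_mem, 1, G.one_mem, by simp⟩
  · intro a
    obtain ⟨x, rfl⟩ := hs a
    refine ⟨f (-x), ?_, ?_⟩
    · show 0 ∈ p.2 (f x) (f (-x))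
      rw [ha]
      exact ⟨1, G.one_mem, 1, G.one_mem, by simp [h0]⟩
    · intro b hb
      obtain ⟨y, rfl⟩ := hs b
      have hb' : 0 ∈ p.2 (f x) (f y) := hb
      rw [ha] at hb'
      obtain ⟨g, hg, h, hh, hb2⟩ := hb'
      have h3 := hz.mp hb2.symm
      rw [h1]
      refine ⟨h * g⁻¹, G.mul_mem hh (G.inv_mem hg), ?_⟩
      have hg0 : (g : K) ≠ 0 := g.ne_zero
      push_cast
      field_simp
      linear_combination -h3
  · intro a b c d h2 h3
    obtain ⟨y, rfl⟩ := hs b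
    obtain ⟨z, rfl⟩ := hs c
    obtain ⟨w, rfl⟩ := hs d
    rw [ha] at h2 h3
    obtain ⟨g, hg, h, hh, rfl⟩ := h2
    obtain ⟨g', hg', h', hh', h4⟩ := h3
    have h5 := hz.mp h4.symm
    rw [ha]
    refine ⟨h⁻¹, G.inv_mem hh, g * h⁻¹ * h' * g'⁻¹,
      G.mul_mem (G.mul_mem (G.mul_mem hg (G.inv_mem hh)) hh') (G.inv_mem hg'), ?_⟩
    congr 1
    have e1 : (h : K) ≠ 0 := h.ne_zero
    have e2 : (g' : K) ≠ 0 := g'.ne_zero
    push_cast
    field_simp
    linear_combination -(g : K) * h5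
  · intro a b c
    obtain ⟨x, rfl⟩ := hs a
    obtain ⟨y, rfl⟩ := hs b
    obtain ⟨z, rfl⟩ := hs c
    rw [← hm, ← hm, ha, ha]
    ext w
    constructor
    · rintro ⟨_, ⟨g, hg, h, hh, rfl⟩, rfl⟩
      refine ⟨g, hg, h, hh, ?_⟩
      simp only
      rw [← hm]
      congr 1
      ring
    · rintro ⟨g, hg, h, hh, rfl⟩
      refine ⟨f (y * (g : K) + z * (h : K)), ⟨g, hg, h, hh, rfl⟩, ?_⟩
      simp only
      rw [← hm]
      congr 1
      ring

/-- the map from cosets -/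
noncomputable def cosetMap (h : IsQK r p K G f) : Kˣ ⧸ G → Fin (r+1) :=
  Quotient.lift (fun x : Kˣ => f (x : K)) (by
    intro a b hab
    have := (QuotientGroup.leftRel_apply.mp hab)
    refine (h.2.2.1 _ _).mpr ⟨_, this, ?_⟩
    push_cast
    rw [mul_inv_cancel_left₀ a.ne_zero])

theorem cosetMap_mk (h : IsQK r p K G f) (x : Kˣ) : cosetMap h (x : Kˣ ⧸ G) = f (x : K) := rfl

theorem cosetMap_inj (h : IsQK r p K G f) : Function.Injective (cosetMap h) := by
  intro a b hab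
  obtain ⟨x, rfl⟩ := QuotientGroup.mk_surjective a
  obtain ⟨y, rfl⟩ := QuotientGroup.mk_surjective b
  rw [cosetMap_mk, cosetMap_mk] at hab
  obtain ⟨g, hg, hg2⟩ := (h.2.2.1 _ _).mp hab
  rw [QuotientGroup.eq]
  have : y = x * g := Units.val_injective (by rw [hg2, Units.val_mul])
  rw [this]
  simpa using hg

theorem IsQK.finite (h : IsQK r p K G f) : Finite (Kˣ ⧸ G) :=
  Finite.of_injective _ (cosetMap_inj h)

theorem IsQK.card (h : IsQK r p K G f) : Nat.card (Kˣ ⧸ G) = r := by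
  have e : (Kˣ ⧸ G) ≃ {a : Fin (r+1) // a ≠ 0} := by
    refine Equiv.ofBijective (fun x => ⟨cosetMap h x, ?_⟩) ⟨?_, ?_⟩
    · obtain ⟨x, rfl⟩ := QuotientGroup.mk_surjective x
      rw [cosetMap_mk, Ne, h.eq_zero]
      exact x.ne_zero
    · intro a b hab
      exact cosetMap_inj h (congrArg Subtype.val hab)
    · rintro ⟨a, ha⟩
      obtain ⟨x, rfl⟩ := h.1 a
      rw [Ne, h.eq_zero] at ha
      exact ⟨((Units.mk0 x ha : Kˣ) : Kˣ ⧸ G), Subtype.ext rfl⟩
  rw [Nat.card_congr e, Nat.card_eq_fintype_card, Fintype.card_subtype_compl,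
    Fintype.card_fin, Fintype.card_unique, Nat.add_sub_cancel]

theorem IsQK.cond (h : IsQK r p K G f)
    (hd : ∀ c : K, ∃ g ∈ G, ∃ h ∈ G, c = (g : K) - (h : K)) : Cond r p := by
  have hz := fun {x : K} => h.eq_zero (x := x)
  obtain ⟨hs, h0, h1, hm, ha⟩ := h
  have huniv : p.2 (f 1) (f (-1)) = Set.univ := by
    rw [Set.eq_univ_iff_forall]
    intro w
    obtain ⟨c, rfl⟩ := hs w
    obtain ⟨g, hg, h, hh, rfl⟩ := hd c
    rw [ha]
    exact ⟨g, hg, h, hh, by congr 1; ring⟩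
  refine ⟨f 1, f (-1), fun h => one_ne_zero (hz.mp h), fun a => ?_, ?_, huniv⟩
  · obtain ⟨x, rfl⟩ := hs a
    rw [← hm, one_mul]
  · rw [huniv]; exact Set.mem_univ _

/-- the dichotomy -/
theorem IsQK.dichotomy (h : IsQK r p K G f) :
    Cond r p ∨ (Finite K ∧ Nat.card K < 16 * r ^ 4) := by
  by_cases hK : Finite K
  · have := Fintype.ofFinite K
    classical
    by_cases hq : Nat.card K < 16 * r ^ 4
    · exact Or.inr ⟨hK, hq⟩
    · refine Or.inl (h.cond ?_)
      rw [Nat.card_eq_fintype_card] at hq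
      have hr := h.card
      have hfin := h.finite
      have hr1 : 1 ≤ r := by
        rw [← hr]; exact Nat.card_pos
      have hc := Subgroup.card_eq_card_quotient_mul_card_subgroup G
      rw [hr, Nat.card_eq_fintype_card, Fintype.card_units] at hc
      exact finite_diff G r hr1 hc.symm (by omega)
  · rw [not_finite_iff_infinite] at hK
    have := h.finite
    exact Or.inl (h.cond (infinite_diff G))

/-- isomorphism of labelled structures -/
def Iso (r : ℕ) (p q : Str r) : Prop :=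
  ∃ e : Fin (r+1) ≃ Fin (r+1), ∀ a b, e (p.1 a b) = q.1 (e a) (e b) ∧ e '' p.2 a b = q.2 (e a) (e b)

/-- a subgroup of the multiplicative group of a finite field is determined by its order -/
theorem mem_iff_pow [Finite K] (x : Kˣ) : x ∈ G ↔ x ^ Nat.card G = 1 := by
  classical
  have := Fintype.ofFinite K
  constructor
  · intro hx
    have := pow_card_eq_one' (G := G) (x := ⟨x, hx⟩)
    exact congrArg Subtype.val this
  · intro hx
    have h1 : (Finset.univ.filter (fun a : Kˣ => a ^ Nat.card G = 1)).card ≤ Nat.card G :=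
      IsCyclic.card_pow_eq_one_le Nat.card_pos
    have h2 : (Finset.univ.filter (fun a : Kˣ => a ∈ G)) =
        (Finset.univ.filter (fun a : Kˣ => a ^ Nat.card G = 1)) := by
      refine Finset.eq_of_subset_of_card_le ?_ ?_
      · intro a ha
        simp only [Finset.mem_filter, Finset.mem_univ, true_and] at ha ⊢
        have := pow_card_eq_one' (G := G) (x := ⟨a, ha⟩)
        exact congrArg Subtype.val this
      · refine h1.trans (le_of_eq ?_)
        rw [Nat.card_eq_fintype_card, Fintype.card_subtype]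
    have : x ∈ (Finset.univ.filter (fun a : Kˣ => a ∈ G)) := by
      rw [h2]; simpa using hx
    simpa using this

/-- finite fields of the same order give isomorphic quotients -/
theorem IsQK.iso [Finite K] {q : Str r} {K' : Type} [Field K'] [Finite K'] {G' : Subgroup K'ˣ}
    {f' : K' → Fin (r+1)} (h : IsQK r p K G f) (h' : IsQK r q K' G' f')
    (hcard : Nat.card K = Nat.card K') : Iso r p q := by
  classical
  have := Fintype.ofFinite K
  have := Fintype.ofFinite K'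
  have hcard' : Fintype.card K = Fintype.card K' := by
    rw [← Nat.card_eq_fintype_card, ← Nat.card_eq_fintype_card, hcard]
  let φ : K ≃+* K' := FiniteField.ringEquivOfCardEq hcard'
  have hG : Nat.card G = Nat.card G' := by
    have h1 := Subgroup.card_eq_card_quotient_mul_card_subgroup G
    have h2 := Subgroup.card_eq_card_quotient_mul_card_subgroup G'
    rw [h.card] at h1
    rw [h'.card] at h2
    have h3 : Nat.card Kˣ = Nat.card K'ˣ := by
      rw [Nat.card_eq_fintype_card, Nat.card_eq_fintype_card, Fintype.card_units,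
        Fintype.card_units, hcard']
    have hr1 : 0 < r := by
      have := h.card
      have hfin := h.finite
      rw [← this]; exact Nat.card_pos
    rw [h1, h2] at h3
    exact Nat.eq_of_mul_eq_mul_left hr1 h3
  have hGm : ∀ x : Kˣ, x ∈ G ↔ Units.map (φ : K →* K') x ∈ G' := by
    intro x
    rw [mem_iff_pow, mem_iff_pow, ← map_pow, ← hG]
    constructor
    · intro h; rw [h, map_one]
    · intro h
      have : Function.Injective (Units.map (φ : K →* K')) := Units.map_injective φ.injective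
      exact this (by rw [h, map_one])
  have hrel : ∀ x y : K, f x = f y ↔ f' (φ x) = f' (φ y) := by
    intro x y
    rw [h.2.2.1, h'.2.2.1]
    constructor
    · rintro ⟨g, hg, rfl⟩
      exact ⟨Units.map (φ : K →* K') g, (hGm g).mp hg, by simp⟩
    · rintro ⟨g', hg', hy⟩
      refine ⟨Units.map (φ.symm : K' →* K) g', ?_, ?_⟩
      · rw [hGm]
        convert hg'
        ext
        simp
      · apply φ.injective
        rw [hy, map_mul]
        simp
  let F : Fin (r+1) → Fin (r+1) := fun a => f' (φ (Function.surjInv h.1 a))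
  have hF : ∀ x, F (f x) = f' (φ x) := by
    intro x
    simp only [F]
    rw [← hrel]
    exact Function.surjInv_eq h.1 (f x)
  have hbij : Function.Bijective F := by
    refine (Finite.injective_iff_bijective).mp ?_
    intro a b hab
    obtain ⟨x, rfl⟩ := h.1 a
    obtain ⟨y, rfl⟩ := h.1 b
    rw [hF, hF] at hab
    exact (hrel x y).mpr hab
  refine ⟨Equiv.ofBijective F hbij, fun a b => ?_⟩
  obtain ⟨x, rfl⟩ := h.1 a
  obtain ⟨y, rfl⟩ := h.1 b
  simp only [Equiv.ofBijective_apply, hF]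
  constructor
  · rw [← h.2.2.2.1, hF, map_mul, h'.2.2.2.1]
  · rw [h.2.2.2.2, h'.2.2.2.2]
    ext w
    constructor
    · rintro ⟨_, ⟨g, hg, k, hk, rfl⟩, rfl⟩
      refine ⟨Units.map (φ : K →* K') g, (hGm g).mp hg, Units.map (φ : K →* K') k,
        (hGm k).mp hk, ?_⟩
      show F _ = _
      rw [hF, map_add, map_mul, map_mul]
      simp
    · rintro ⟨g', hg', k', hk', rfl⟩
      refine ⟨f (x * ((Units.map (φ.symm : K' →* K) g' : Kˣ) : K)
        + y * ((Units.map (φ.symm : K' →* K) k' : Kˣ) : K)),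
        ⟨Units.map (φ.symm : K' →* K) g', ?_, Units.map (φ.symm : K' →* K) k', ?_, rfl⟩, ?_⟩
      · rw [hGm]
        convert hg'
        ext
        simp
      · rw [hGm]
        convert hk'
        ext
        simp
      · show F _ = _
        rw [hF, map_add, map_mul, map_mul]
        simp

end

end Pool.Agent.K1H9.HF
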